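import Pool.Agent.Lib.MP_2e24f1_ag.Cover

/-! Decomposable systems: sums of squares of bilinear and of sesquilinear forms. -/

namespace Pool.Agent.MP2e24f1

open Matrix
open scoped ComplexOrder

/-- Decomposable systems `K_ab = ∑_s (M_s^* M_s + partial transpose of N_s^* N_s)`. -/
def IsDec {ι : Type*} {k : ℕ} (K : ι → ι → Matrix (Fin k) (Fin k) ℂ) : Prop :=
  ∃ (m : ℕ) (M N : Fin m → ι → Fin k → ℂ), ∀ a b j l,
    K a b j l = ∑ s, (star (M s a j) * M s b l + star (N s b j) * N s a l)

end Pool.Agent.MP2e24f1
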