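import Pool.Agent.Lib.MP_2e24f1_ag_h13.Pencil
import Pool.Agent.Lib.MP_2e24f1_ag_h13.DecDef

/-! Reduction of the Schur determinants of a decomposable system to determinants. -/

namespace Pool.Agent.MP2e24f1

open Matrix
open scoped ComplexOrder

section chain

variable {ι μ R : Type*} [Fintype ι] [DecidableEq ι] [Fintype μ] [DecidableEq μ] [CommRing R]
  [Algebra ℂ R]

/-- Columns of a family of vectors. -/
noncomputable def gcol (R : Type*) [CommRing R] [Algebra ℂ R] (w : μ → ι → ℂ) : Matrix ι μ R :=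
  Matrix.of fun a i => algebraMap ℂ R (w i a)

/-- Conjugate rows of a family of vectors. -/
noncomputable def grow (R : Type*) [CommRing R] [Algebra ℂ R] (w : μ → ι → ℂ) : Matrix μ ι R :=
  Matrix.of fun i a => algebraMap ℂ R (star (w i a))

/-- The bordered pencil of a family of vectors, at zero. -/
noncomputable def chP (Y : Matrix ι ι R) (w : μ → ι → ℂ) : Matrix (ι ⊕ μ) (ι ⊕ μ) R :=
  fromBlocks 1 (-(Y * gcol R w)) (grow R w) 0

/-- Inclusion. -/
def chJ (ι μ R : Type*) [DecidableEq ι] [CommRing R] : Matrix (ι ⊕ μ) ι R := fromRows 1 0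

/-- Projection. -/
def chJ' (ι μ R : Type*) [DecidableEq ι] [CommRing R] : Matrix ι (ι ⊕ μ) R := fromCols 1 0

/-- The bordered characteristic polynomial. -/
noncomputable def chE (Y : Matrix ι ι R) (w : μ → ι → ℂ) : Polynomial R :=
  (penX (chP Y w) (chJ ι μ R) (chJ' ι μ R) Y).det

omit [Fintype μ] [DecidableEq μ] [Algebra ℂ R] in
theorem chJYJ (Y : Matrix ι ι R) :
    chJ ι μ R * Y * chJ' ι μ R = fromBlocks Y 0 0 0 := by
  unfold chJ chJ'
  rw [fromRows_mul, fromRows_mul_fromCols]
  simp

theorem penX_chP (Y : Matrix ι ι R) (w : μ → ι → ℂ) :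
    penX (chP Y w) (chJ ι μ R) (chJ' ι μ R) Y =
      fromBlocks (1 + (Polynomial.X : Polynomial R) • Y.map Polynomial.C)
        (-(Y * gcol R w).map Polynomial.C) ((grow R w).map Polynomial.C) 0 := by
  unfold penX
  rw [chJYJ]
  unfold chP
  generalize Y * gcol R w = Z
  ext (i | i) (j | j) : 1
  · by_cases h : i = j
    · subst h; simp
    · simp [h]
  · simp
  · simp
  · simp

theorem wform_chP (Y : Matrix ι ι R) (w : μ → ι → ℂ) (u : ι → ℂ) :
    wform (penWX (chP Y w) (chJ ι μ R) (chJ' ι μ R) Y) u =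
      chE Y (Sum.elim w (fun _ : Unit => u)) := by
  let A := penX (chP Y w) (chJ ι μ R) (chJ' ι μ R) Y
  let g : Matrix ι Unit (Polynomial R) := (gcol R (fun _ : Unit => u)).map Polynomial.C
  let g' : Matrix Unit ι (Polynomial R) := (grow R (fun _ : Unit => u)).map Polynomial.C
  let Jc := (chJ ι μ R).map (Polynomial.C : R →+* Polynomial R)
  let Jc' := (chJ' ι μ R).map (Polynomial.C : R →+* Polynomial R)
  have h1 : wform (penWX (chP Y w) (chJ ι μ R) (chJ' ι μ R) Y) u =
      ((g' * Jc') * A.adjugate * (Jc * Y.map Polynomial.C * g)) () () := by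
    have h2 : (g' * Jc') * A.adjugate * (Jc * Y.map Polynomial.C * g) =
        g' * (Jc' * A.adjugate * Jc * Y.map Polynomial.C) * g := by
      simp only [Matrix.mul_assoc]
    rw [h2]
    change _ = (g' * (penWX (chP Y w) (chJ ι μ R) (chJ' ι μ R) Y) * g) () ()
    rw [Matrix.mul_assoc]
    simp only [Matrix.mul_apply, wform, Finset.mul_sum]
    rfl
  rw [h1]
  have h3 := det_border A (-(Jc * Y.map Polynomial.C * g)) (g' * Jc')
  rw [Matrix.mul_neg, Matrix.neg_apply, neg_neg] at h3
  rw [← h3]
  unfold chE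
  rw [← Matrix.det_submatrix_equiv_self (Equiv.sumAssoc ι μ Unit)
    (penX (chP Y (Sum.elim w (fun _ : Unit => u))) (chJ ι (μ ⊕ Unit) R) (chJ' ι (μ ⊕ Unit) R) Y)]
  congr 1
  have h4 : Jc * Y.map Polynomial.C * g =
      fromRows ((Y * gcol R (fun _ : Unit => u)).map Polynomial.C) 0 := by
    have e1 : Jc = fromRows 1 0 := by
      ext (i | i) j
      · by_cases h : i = j
        · subst h; simp [Jc, chJ]
        · simp [Jc, chJ, h]
      · simp [Jc, chJ]
    rw [e1, fromRows_mul, fromRows_mul, Matrix.one_mul, Matrix.zero_mul, Matrix.zero_mul,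
      Matrix.map_mul]
  have h5 : g' * Jc' = fromCols ((grow R (fun _ : Unit => u)).map Polynomial.C) 0 := by
    have e1 : Jc' = fromCols 1 0 := by
      ext i (j | j)
      · by_cases h : i = j
        · subst h; simp [Jc', chJ']
        · simp [Jc', chJ', h]
      · simp [Jc', chJ']
    rw [e1, mul_fromCols, Matrix.mul_one, Matrix.mul_zero]
  rw [h4, h5]
  simp only [A]
  rw [penX_chP, penX_chP]
  have h6 : ∀ (a : ι) (i : μ), (Y * gcol R (Sum.elim w (fun _ : Unit => u))) a (Sum.inl i) =
      (Y * gcol R w) a i := fun a i => rfl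
  have h7 : ∀ (a : ι) (i : Unit), (Y * gcol R (Sum.elim w (fun _ : Unit => u))) a (Sum.inr i) =
      (Y * gcol R (fun _ : Unit => u)) a i := fun a i => rfl
  ext ((i | i) | i) ((j | j) | j) : 1
  · rfl
  · rfl
  · rfl
  · rfl
  · rfl
  · simp
  · rfl
  · simp
  · rfl

theorem chE_coeff_zero (Y : Matrix ι ι R) (w : μ → ι → ℂ) :
    (chE Y w).coeff 0 = (grow R w * Y * gcol R w).det := by
  rw [Polynomial.coeff_zero_eq_eval_zero]
  unfold chE
  rw [penX_eval_det]
  unfold pen
  rw [zero_smul, add_zero]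
  unfold chP
  rw [det_fromBlocks_one₁₁, zero_sub, Matrix.mul_neg, neg_neg, Matrix.mul_assoc]

theorem chE_empty [IsEmpty μ] (Y : Matrix ι ι R) (w : μ → ι → ℂ) (n : ℕ) :
    (chE Y w).coeff n = ee Y n := by
  unfold chE ee
  rw [penX_chP]
  have h1 : ((grow R w).map Polynomial.C : Matrix μ ι (Polynomial R)) = 0 := by
    ext i
    exact isEmptyElim i
  have h2 : (0 : Matrix μ μ (Polynomial R)).det = 1 := Matrix.det_isEmpty
  rw [h1, det_fromBlocks_zero₂₁, h2, mul_one]
  rfl

/-- Coefficients indexed by the integers. -/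
noncomputable def eW (Y : Matrix ι ι R) (w : μ → ι → ℂ) (n : ℤ) : R :=
  if 0 ≤ n then (chE Y w).coeff n.toNat else 0

theorem coeff_X_pow_eq (Y : Matrix ι ι R) (w : μ → ι → ℂ) (j m : ℕ) :
    (Polynomial.X ^ j * chE Y w).coeff m = eW Y w ((m : ℤ) - j) := by
  rw [Polynomial.coeff_X_pow_mul']
  unfold eW
  by_cases h : j ≤ m
  · rw [if_pos h, if_pos (by omega)]
    congr 1
    omega
  · rw [if_neg h, if_neg (by omega)]

theorem chain_step (Y : Matrix ι ι R) (w : μ → ι → ℂ) (φ : R →ₗ[ℂ] ℂ) (x : R) {l : ℕ}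
    (m : Fin l → ℕ)
    (h : ∀ u : ι → ℂ, 0 ≤ φ (x * (Matrix.of fun i j : Fin l =>
      eW Y (Sum.elim w (fun _ : Unit => u)) ((m i : ℤ) - (j : ℕ))).det)) :
    0 ≤ φ (x * ((∏ i, ((m i + 1 : ℕ) : R)) * (Matrix.of fun i j : Fin l =>
      eW Y w (((m i + 1 : ℕ) : ℤ) - (j : ℕ))).det)) := by
  have h1 := zonal_step (chP Y w) (chJ ι μ R) (chJ' ι μ R) Y φ x m (by
    intro u
    rw [wform_chP]
    simp only [coeff_X_pow_eq]
    exact h u)
  have h2 : (penX (chP Y w) (chJ ι μ R) (chJ' ι μ R) Y).det = chE Y w := rfl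
  rw [h2] at h1
  simp only [coeff_X_pow_eq] at h1
  exact h1

theorem sdet_rev {R : Type*} [CommRing R] (e : ℤ → R) {l : ℕ} (σ : Fin l → ℕ) (m : Fin l → ℕ)
    (hm : ∀ i, (m i : ℤ) = σ i - (i : ℕ) + (l - 1)) :
    (Matrix.of fun i j : Fin l => e ((m i : ℤ) - (j : ℕ))).det =
      ((Equiv.Perm.sign (Fin.revPerm : Equiv.Perm (Fin l)) : ℤ) : R) * sdet e σ := by
  unfold sdet
  rw [← Matrix.det_permute']
  congr 1
  ext i j
  rw [Matrix.submatrix_apply, Matrix.of_apply, Matrix.of_apply, hm]
  congr 1
  simp only [id, Fin.revPerm_apply, Fin.val_rev]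
  have := j.2
  omega

theorem sdet_peel {R : Type*} [CommRing R] (e : ℤ → R) (he : ∀ n : ℤ, n < 0 → e n = 0) {l : ℕ}
    (σ : Fin (l + 1) → ℕ) (h0 : σ (Fin.last l) = 0) :
    sdet e σ = e 0 * sdet e (fun i : Fin l => σ i.castSucc) := by
  unfold sdet
  rw [Matrix.det_succ_row _ (Fin.last l), Finset.sum_eq_single (Fin.last l)]
  · rw [Matrix.of_apply, h0]
    have h1 : ((0 : ℕ) : ℤ) - ((Fin.last l : Fin (l + 1)) : ℕ) + ((Fin.last l : Fin (l + 1)) : ℕ) = 0 := by
      simp
    rw [h1, ← two_mul, pow_mul]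
    simp only [even_two, Even.neg_pow, one_pow, one_mul]
    congr 2
    ext i j
    simp [Fin.succAbove_last]
  · intro j _ hj
    rw [Matrix.of_apply, h0, he, mul_zero, zero_mul]
    have : (j : ℕ) < l := by
      have h2 := j.2
      have h3 : (j : ℕ) ≠ l := by
        intro h
        apply hj
        apply Fin.ext
        simpa using h
      omega
    simp
    omega
  · simp

end chain

/-- Determinants of decomposable systems of size `n`. -/
def DD (k n : ℕ) (x : PolyForms k) : Prop :=
  ∃ (γ : Type) (_ : Fintype γ) (_ : DecidableEq γ) (K : γ → γ → Matrix (Fin k) (Fin k) ℂ),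
    Fintype.card γ = n ∧ IsDec K ∧ x = (sysLin K).det

theorem DD.one (k : ℕ) : DD k 0 1 := by
  refine ⟨Empty, inferInstance, inferInstance, fun a => a.elim, rfl, ?_, ?_⟩
  · exact ⟨0, fun s => s.elim0, fun s => s.elim0, fun a => a.elim⟩
  · rw [Matrix.det_isEmpty]

theorem IsDec.gram {ι γ : Type*} [Fintype ι] {k : ℕ} {K : ι → ι → Matrix (Fin k) (Fin k) ℂ}
    (hK : IsDec K) (w : γ → ι → ℂ) : IsDec (gram K w) := by
  obtain ⟨m, M, N, h⟩ := hK
  refine ⟨m, fun s a j => ∑ c, w a c * M s c j, fun s a j => ∑ c, star (w a c) * N s c j, ?_⟩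
  intro a b j l
  have e1 : ∀ s, star (∑ c, w a c * M s c j) * ∑ c, w b c * M s c l =
      ∑ c, ∑ d, star (w a c) * w b d * (star (M s c j) * M s d l) := by
    intro s
    rw [star_sum, Finset.sum_mul_sum]
    apply Finset.sum_congr rfl
    intro c _
    apply Finset.sum_congr rfl
    intro d _
    rw [star_mul']
    ring
  have e2 : ∀ s, star (∑ c, star (w b c) * N s c j) * ∑ c, star (w a c) * N s c l =
      ∑ c, ∑ d, star (w a c) * w b d * (star (N s d j) * N s c l) := by
    intro s
    rw [star_sum, Finset.sum_mul_sum, Finset.sum_comm]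
    apply Finset.sum_congr rfl
    intro c _
    apply Finset.sum_congr rfl
    intro d _
    rw [star_mul', star_star]
    ring
  simp only [e1, e2]
  unfold Pool.Agent.MP2e24f1.gram
  simp only [Matrix.sum_apply, Matrix.smul_apply, smul_eq_mul, h]
  calc ∑ c, ∑ d, star (w a c) * w b d * ∑ s, (star (M s c j) * M s d l + star (N s d j) * N s c l)
      = ∑ c, ∑ s, ∑ d, star (w a c) * w b d *
          (star (M s c j) * M s d l + star (N s d j) * N s c l) := by
        apply Finset.sum_congr rfl
        intro c _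
        rw [Finset.sum_comm]
        apply Finset.sum_congr rfl
        intro d _
        rw [Finset.mul_sum]
    _ = ∑ s, ∑ c, ∑ d, star (w a c) * w b d *
          (star (M s c j) * M s d l + star (N s d j) * N s c l) := Finset.sum_comm
    _ = _ := by
        apply Finset.sum_congr rfl
        intro s _
        simp only [mul_add, Finset.sum_add_distrib]

/-- Direct sums of systems. -/
def dsum {γ δ : Type*} {k : ℕ} (K : γ → γ → Matrix (Fin k) (Fin k) ℂ)
    (L : δ → δ → Matrix (Fin k) (Fin k) ℂ) : γ ⊕ δ → γ ⊕ δ → Matrix (Fin k) (Fin k) ℂ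
  | Sum.inl a, Sum.inl b => K a b
  | Sum.inr a, Sum.inr b => L a b
  | _, _ => 0

theorem IsDec.dsum {γ δ : Type*} {k : ℕ} {K : γ → γ → Matrix (Fin k) (Fin k) ℂ}
    {L : δ → δ → Matrix (Fin k) (Fin k) ℂ} (hK : IsDec K) (hL : IsDec L) :
    IsDec (Pool.Agent.MP2e24f1.dsum K L) := by
  obtain ⟨m, M, N, h⟩ := hK
  obtain ⟨m', M', N', h'⟩ := hL
  refine ⟨m + m', fun s a j => Fin.addCases (motive := fun _ => ℂ)
      (fun s => Sum.elim (fun a => M s a j) (fun _ => 0) a)
      (fun s => Sum.elim (fun _ => 0) (fun a => M' s a j) a) s,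
    fun s a j => Fin.addCases (motive := fun _ => ℂ)
      (fun s => Sum.elim (fun a => N s a j) (fun _ => 0) a)
      (fun s => Sum.elim (fun _ => 0) (fun a => N' s a j) a) s, ?_⟩
  intro a b j l
  rw [Fin.sum_univ_add]
  simp only [Fin.addCases_left, Fin.addCases_right]
  rcases a with a | a <;> rcases b with b | b
  · simp [Pool.Agent.MP2e24f1.dsum, h]
  · simp [Pool.Agent.MP2e24f1.dsum]
  · simp [Pool.Agent.MP2e24f1.dsum]
  · simp [Pool.Agent.MP2e24f1.dsum, h']

theorem DD.mul {k n m : ℕ} {x y : PolyForms k} (hx : DD k n x) (hy : DD k m y) :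
    DD k (n + m) (x * y) := by
  obtain ⟨γ, _, _, K, hc, hK, rfl⟩ := hx
  obtain ⟨δ, _, _, L, hc', hL, rfl⟩ := hy
  refine ⟨γ ⊕ δ, inferInstance, inferInstance, Pool.Agent.MP2e24f1.dsum K L, ?_, hK.dsum hL, ?_⟩
  · rw [Fintype.card_sum, hc, hc']
  · rw [← Matrix.det_fromBlocks_zero₂₁ (sysLin K) 0 (sysLin L)]
    congr 1
    ext (a | a) (b | b) : 1
    · rfl
    · simp [sysLin, Pool.Agent.MP2e24f1.dsum, lin_zero]
    · simp [sysLin, Pool.Agent.MP2e24f1.dsum, lin_zero]
    · rfl

theorem DD.gram {ι μ : Type} [Fintype ι] [DecidableEq ι] [Fintype μ] [DecidableEq μ] {k : ℕ}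
    {K : ι → ι → Matrix (Fin k) (Fin k) ℂ} (hK : IsDec K) (w : μ → ι → ℂ) :
    DD k (Fintype.card μ) (eW (sysLin K) w 0) := by
  refine ⟨μ, inferInstance, inferInstance, Pool.Agent.MP2e24f1.gram K w, rfl, hK.gram w, ?_⟩
  unfold eW
  rw [if_pos le_rfl]
  change (chE (sysLin K) w).coeff 0 = _
  rw [chE_coeff_zero]
  congr 1
  ext a b : 1
  rw [sysLin_gram, Matrix.mul_assoc]
  simp only [Matrix.mul_apply, Finset.mul_sum]
  rfl

theorem chain_nonneg {k : ℕ} (hDD : ∀ x : PolyForms k, DD k k x → 0 ≤ topCoeff k x)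
    {ι : Type} [Fintype ι] [DecidableEq ι] {K : ι → ι → Matrix (Fin k) (Fin k) ℂ} (hK : IsDec K) :
    ∀ (N l : ℕ) (σ : Fin l → ℕ), l + ∑ i, σ i = N → Antitone σ →
      ∀ (μ : Type) [Fintype μ] [DecidableEq μ] (w : μ → ι → ℂ) (n : ℕ) (x : PolyForms k),
      DD k n x → n + ∑ i, (σ i + Fintype.card μ) = k →
      0 ≤ topCoeff k (x * sdet (eW (sysLin K) w) σ) := by
  intro N
  induction N using Nat.strong_induction_on with
  | _ N ih =>
    intro l σ hN hσ μ _ _ w n x hx hk
    rcases l with _ | l
    · have h1 : sdet (eW (sysLin K) w) σ = 1 := by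
        unfold sdet
        rw [Matrix.det_isEmpty]
      rw [h1, mul_one]
      apply hDD
      have : n = k := by simpa using hk
      subst this
      exact hx
    · by_cases h0 : σ (Fin.last l) = 0
      · -- the last part is zero
        rw [sdet_peel _ (fun n hn => by unfold eW; rw [if_neg (by omega)]) σ h0, ← mul_assoc]
        apply ih (l + ∑ i : Fin l, σ i.castSucc) _ l (fun i => σ i.castSucc) rfl _ μ w
          (n + Fintype.card μ) (x * eW (sysLin K) w 0) (hx.mul (DD.gram hK w))
        · rw [Fin.sum_univ_castSucc, h0] at hk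
          rw [← hk]
          ring
        · rw [Fin.sum_univ_castSucc, h0] at hN
          omega
        · intro i j hij
          exact hσ (by simpa using hij)
      · -- all parts are positive
        have hpos : ∀ i, 1 ≤ σ i := by
          intro i
          have := hσ (Fin.le_last i)
          omega
        let sg : PolyForms k :=
          ((Equiv.Perm.sign (Fin.revPerm : Equiv.Perm (Fin (l + 1))) : ℤ) : PolyForms k)
        have hsg : sg * sg = 1 := by
          simp only [sg]
          rcases Int.units_eq_one_or (Equiv.Perm.sign (Fin.revPerm : Equiv.Perm (Fin (l + 1))))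
            with h | h <;> rw [h] <;> simp
        let m : Fin (l + 1) → ℕ := fun i => σ i + l - (i : ℕ) - 1
        have hm : ∀ i, (m i : ℤ) = σ i - (i : ℕ) + l - 1 := by
          intro i
          have h1 := hpos i
          have h2 := i.2
          simp only [m]
          omega
        have h1 := chain_step (sysLin K) w (topCoeff k) (x * sg) m (by
            intro u
            rw [sdet_rev _ (fun i => σ i - 1) m (by
              intro i
              have h1 := hpos i
              rw [hm]
              push_cast [Nat.cast_sub h1]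
              ring)]
            have e1 : x * sg * (sg * sdet (eW (sysLin K) (Sum.elim w (fun _ : Unit => u)))
                (fun i => σ i - 1)) = x * sdet (eW (sysLin K) (Sum.elim w (fun _ : Unit => u)))
                (fun i => σ i - 1) := by
              calc _ = (sg * sg) * (x * sdet (eW (sysLin K) (Sum.elim w (fun _ : Unit => u)))
                (fun i => σ i - 1)) := by ring
                _ = _ := by rw [hsg, one_mul]
            rw [e1]
            have hs : ∑ i, σ i = ∑ i : Fin (l + 1), (σ i - 1) + (l + 1) := by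
              have : ∀ i, σ i = (σ i - 1) + 1 := by
                intro i
                have := hpos i
                omega
              rw [Finset.sum_congr rfl (fun i _ => this i), Finset.sum_add_distrib]
              simp
            apply ih ((l + 1) + ∑ i, (σ i - 1)) _ (l + 1) (fun i => σ i - 1) rfl _ (μ ⊕ Unit)
              (Sum.elim w (fun _ : Unit => u)) n x hx
            · rw [← hk]
              congr 1
              apply Finset.sum_congr rfl
              intro i _
              have := hpos i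
              rw [Fintype.card_sum, Fintype.card_unit]
              omega
            · omega
            · intro i j hij
              have := hσ hij
              change σ j - 1 ≤ σ i - 1
              omega)
        rw [sdet_rev _ σ (fun i => m i + 1) (by
          intro i
          push_cast
          rw [hm]
          push_cast
          ring)] at h1
        have e1 : x * sg * ((∏ i, ((m i + 1 : ℕ) : PolyForms k)) * (sg * sdet (eW (sysLin K) w) σ)) =
            ((∏ i, (m i + 1) : ℕ) : PolyForms k) * (x * sdet (eW (sysLin K) w) σ) := by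
          rw [Nat.cast_prod]
          calc _ = (sg * sg) * ((∏ i, ((m i + 1 : ℕ) : PolyForms k)) *
              (x * sdet (eW (sysLin K) w) σ)) := by ring
            _ = _ := by rw [hsg, one_mul]
        rw [e1] at h1
        exact nonneg_of_natCast_mul (Finset.prod_pos (fun i _ => Nat.succ_pos _)) h1

theorem IsDec.schur_nonneg_of {k : ℕ} (hDD : ∀ x : PolyForms k, DD k k x → 0 ≤ topCoeff k x)
    {ι : Type} [Fintype ι] [DecidableEq ι] {K : ι → ι → Matrix (Fin k) (Fin k) ℂ} (hK : IsDec K)
    (σ : Fin k → ℕ) (hσ : Antitone σ) (hsum : ∑ i, σ i = k) :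
    0 ≤ topCoeff k (sdet (eZ (sysLin K)) σ) := by
  have h1 := chain_nonneg hDD hK _ k σ rfl hσ Empty (fun a => a.elim) 0 1 (DD.one k) (by
    rw [Fintype.card_empty, zero_add]
    simpa using hsum)
  rw [one_mul] at h1
  have h2 : eW (sysLin K) (fun a : Empty => a.elim) = eZ (sysLin K) := by
    funext n
    unfold eW eZ
    split_ifs
    · rw [chE_empty]
    · rfl
  rw [h2] at h1
  exact h1

end Pool.Agent.MP2e24f1
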