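import Mathlib

/-! Quaternionic determinants are nonnegative. -/

namespace Pool.Agent.MP2e24f1

open Matrix
open scoped ComplexOrder

/-- An index set with a fixed point free involution and a sign. -/
structure QIdx (ι : Type*) where
  τ : ι → ι
  ε : ι → ℂ
  inv : ∀ i, τ (τ i) = i
  ne : ∀ i, τ i ≠ i
  sgn : ∀ i, ε (τ i) = - ε i
  sq : ∀ i, ε i * ε i = 1

/-- Quaternionic matrices. -/
def IsQ {ι κ : Type*} (q : QIdx ι) (r : QIdx κ) (M : Matrix ι κ ℂ) : Prop :=
  ∀ i j, star (M (q.τ i) (r.τ j)) = q.ε i * r.ε j * M i j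

theorem QIdx.bij {ι : Type*} (q : QIdx ι) : Function.Bijective q.τ :=
  Function.Involutive.bijective q.inv

theorem IsQ.mul {ι κ l : Type*} [Fintype κ] {q : QIdx ι} {r : QIdx κ} {s : QIdx l}
    {M : Matrix ι κ ℂ} {N : Matrix κ l ℂ} (hM : IsQ q r M) (hN : IsQ r s N) :
    IsQ q s (M * N) := by
  intro i j
  rw [Matrix.mul_apply, star_sum, Matrix.mul_apply, Finset.mul_sum,
    ← (Equiv.ofBijective r.τ r.bij).sum_comp]
  apply Finset.sum_congr rfl
  intro k _
  rw [Equiv.ofBijective_apply, star_mul', hM, hN]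
  calc q.ε i * r.ε k * M i k * (r.ε k * s.ε j * N k j)
      = (r.ε k * r.ε k) * (q.ε i * s.ε j * (M i k * N k j)) := by ring
    _ = _ := by rw [r.sq, one_mul]

theorem IsQ.sub {ι κ : Type*} {q : QIdx ι} {r : QIdx κ} {M N : Matrix ι κ ℂ} (hM : IsQ q r M)
    (hN : IsQ q r N) : IsQ q r (M - N) := by
  intro i j
  rw [Matrix.sub_apply, star_sub, hM, hN, Matrix.sub_apply, mul_sub]

theorem IsQ.add_smul_one {ι : Type*} [DecidableEq ι] {q : QIdx ι} {M : Matrix ι ι ℂ}
    (hM : IsQ q q M) (t : ℝ) : IsQ q q (M + (t : ℂ) • (1 : Matrix ι ι ℂ)) := by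
  intro i j
  rw [Matrix.add_apply, star_add, hM, Matrix.add_apply, mul_add, Matrix.smul_apply,
    Matrix.smul_apply, Matrix.one_apply, Matrix.one_apply]
  congr 1
  by_cases h : i = j
  · subst h
    rw [if_pos rfl, if_pos rfl, q.sq]
    simp
  · rw [if_neg (fun h2 => h (q.bij.1 h2)), if_neg h]
    simp

theorem IsQ.inv {ι : Type*} [Fintype ι] [DecidableEq ι] {q : QIdx ι} {M N : Matrix ι ι ℂ}
    (hM : IsQ q q M) (h : M * N = 1) : IsQ q q N := by
  have hM' : ∀ a b, star (M (q.τ a) (q.τ b)) = q.ε a * q.ε b * M a b := hM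
  let N' : Matrix ι ι ℂ := Matrix.of fun i j => q.ε i * q.ε j * star (N (q.τ i) (q.τ j))
  have h1 : M * N' = 1 := by
    ext i j
    have h2 := congrFun (congrFun h (q.τ i)) (q.τ j)
    rw [Matrix.mul_apply, ← (Equiv.ofBijective q.τ q.bij).sum_comp] at h2
    have h3 := congrArg star h2
    rw [star_sum] at h3
    simp only [Equiv.ofBijective_apply, star_mul', hM'] at h3
    rw [Matrix.mul_apply]
    have h4 : ∀ k, M i k * N' k j = (q.ε i * q.ε j) *
        (q.ε i * q.ε k * M i k * star (N (q.τ k) (q.τ j))) := by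
      intro k
      change M i k * (q.ε k * q.ε j * star (N (q.τ k) (q.τ j))) = _
      calc M i k * (q.ε k * q.ε j * star (N (q.τ k) (q.τ j)))
          = 1 * (q.ε j * (q.ε k * M i k * star (N (q.τ k) (q.τ j)))) := by ring
        _ = (q.ε i * q.ε i) * (q.ε j * (q.ε k * M i k * star (N (q.τ k) (q.τ j)))) := by
            rw [q.sq]
        _ = _ := by ring
    simp only [h4]
    rw [← Finset.mul_sum, h3, Matrix.one_apply, Matrix.one_apply]
    by_cases hij : i = j
    · subst hij
      rw [if_pos rfl, if_pos rfl, q.sq]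
      simp
    · rw [if_neg (fun h2 => hij (q.bij.1 h2)), if_neg hij]
      simp
  have h5 : N' = N := by
    have h6 : N * M = 1 := mul_eq_one_comm.mp h
    calc N' = (N * M) * N' := by rw [h6, Matrix.one_mul]
      _ = N * (M * N') := by rw [Matrix.mul_assoc]
      _ = N := by rw [h1, Matrix.mul_one]
  intro i j
  have h7 : N i j = q.ε i * q.ε j * star (N (q.τ i) (q.τ j)) := by
    conv_lhs => rw [← h5]
    rfl
  rw [h7]
  calc star (N (q.τ i) (q.τ j)) = 1 * 1 * star (N (q.τ i) (q.τ j)) := by ring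
    _ = (q.ε i * q.ε i) * (q.ε j * q.ε j) * star (N (q.τ i) (q.τ j)) := by rw [q.sq, q.sq]
    _ = _ := by ring

/-- Restriction of an index set to an invariant subset. -/
def QIdx.sub {ι : Type*} (q : QIdx ι) (p : ι → Prop) (hp : ∀ i, p i → p (q.τ i)) :
    QIdx {x // p x} where
  τ := fun x => ⟨q.τ x.1, hp x.1 x.2⟩
  ε := fun x => q.ε x.1
  inv := fun x => Subtype.ext (q.inv x.1)
  ne := fun x h => q.ne x.1 (congrArg Subtype.val h)
  sgn := fun x => q.sgn x.1
  sq := fun x => q.sq x.1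

theorem star_mul_self_nonneg' (z : ℂ) : 0 ≤ z * star z := mul_star_self_nonneg z

theorem det_pair {ι : Type*} [DecidableEq ι] (q : QIdx ι) (i0 : ι)
    [Fintype {x // x = i0 ∨ x = q.τ i0}] [DecidableEq {x // x = i0 ∨ x = q.τ i0}]
    (P : Matrix {x // x = i0 ∨ x = q.τ i0} {x // x = i0 ∨ x = q.τ i0} ℂ)
    (hp : ∀ i, (i = i0 ∨ i = q.τ i0) → (q.τ i = i0 ∨ q.τ i = q.τ i0))
    (hP : IsQ (q.sub _ hp) (q.sub _ hp) P) :
    P.det = P ⟨i0, Or.inl rfl⟩ ⟨i0, Or.inl rfl⟩ * star (P ⟨i0, Or.inl rfl⟩ ⟨i0, Or.inl rfl⟩) +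
      P ⟨i0, Or.inl rfl⟩ ⟨q.τ i0, Or.inr rfl⟩ * star (P ⟨i0, Or.inl rfl⟩ ⟨q.τ i0, Or.inr rfl⟩) := by
  let e : Fin 2 ≃ {x // x = i0 ∨ x = q.τ i0} :=
    { toFun := fun s => if s = 0 then ⟨i0, Or.inl rfl⟩ else ⟨q.τ i0, Or.inr rfl⟩
      invFun := fun x => if x.1 = i0 then 0 else 1
      left_inv := by
        intro s
        fin_cases s
        · simp
        · simp [q.ne i0]
      right_inv := by
        intro x
        obtain ⟨x, hx⟩ := x
        rcases hx with hx | hx
        · subst hx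
          simp
        · subst hx
          simp [q.ne i0] }
  rw [← Matrix.det_submatrix_equiv_self e, Matrix.det_fin_two]
  have e0 : e 0 = ⟨i0, Or.inl rfl⟩ := rfl
  have e1 : e 1 = ⟨q.τ i0, Or.inr rfl⟩ := rfl
  simp only [Matrix.submatrix_apply, e0, e1]
  have h1 := hP ⟨i0, Or.inl rfl⟩ ⟨i0, Or.inl rfl⟩
  have h2 := hP ⟨i0, Or.inl rfl⟩ ⟨q.τ i0, Or.inr rfl⟩
  have t1 : (q.sub _ hp).τ ⟨i0, Or.inl rfl⟩ = ⟨q.τ i0, Or.inr rfl⟩ := rfl
  have t2 : (q.sub _ hp).τ ⟨q.τ i0, Or.inr rfl⟩ = ⟨i0, Or.inl rfl⟩ := Subtype.ext (q.inv i0)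
  have s1 : (q.sub _ hp).ε ⟨i0, Or.inl rfl⟩ = q.ε i0 := rfl
  have s2 : (q.sub _ hp).ε ⟨q.τ i0, Or.inr rfl⟩ = - q.ε i0 := q.sgn i0
  rw [t1, s1, q.sq, one_mul] at h1
  rw [t1, t2, s1, s2, mul_neg, q.sq, neg_one_mul] at h2
  have h3 : P ⟨q.τ i0, Or.inr rfl⟩ ⟨q.τ i0, Or.inr rfl⟩ = star (P ⟨i0, Or.inl rfl⟩ ⟨i0, Or.inl rfl⟩) := by
    rw [← h1, star_star]
  have h4 : P ⟨q.τ i0, Or.inr rfl⟩ ⟨i0, Or.inl rfl⟩ =
      - star (P ⟨i0, Or.inl rfl⟩ ⟨q.τ i0, Or.inr rfl⟩) := by
    rw [← star_star (P ⟨q.τ i0, Or.inr rfl⟩ ⟨i0, Or.inl rfl⟩), h2, star_neg]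
  rw [h3, h4]
  ring

theorem isQ_det_nonneg.{u} (n : ℕ) : ∀ (ι : Type u) [Fintype ι] [DecidableEq ι],
    Fintype.card ι = n → ∀ (q : QIdx ι) (M : Matrix ι ι ℂ), IsQ q q M → 0 ≤ M.det := by
  induction n using Nat.strong_induction_on with
  | _ n ih =>
    intro ι _ _ hcard q M hM
    rcases isEmpty_or_nonempty ι with hι | ⟨⟨i0⟩⟩
    · rw [Matrix.det_isEmpty]
      exact zero_le_one
    · let p : ι → Prop := fun x => x = i0 ∨ x = q.τ i0
      have hp : ∀ i, p i → p (q.τ i) := by
        intro i hi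
        rcases hi with h | h
        · right
          rw [h]
        · left
          rw [h, q.inv]
      have hp' : ∀ i, ¬ p i → ¬ p (q.τ i) := by
        intro i hi h
        apply hi
        have := hp _ h
        rwa [q.inv] at this
      have key : ∀ N : Matrix ι ι ℂ, IsQ q q N → (N i0 i0 ≠ 0) → 0 ≤ N.det := by
        intro N hN h0
        set P := Matrix.toBlock N p p with hPdef
        set B := Matrix.toBlock N p (fun j => ¬ p j) with hBdef
        set C := Matrix.toBlock N (fun i => ¬ p i) p with hCdef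
        set S := Matrix.toBlock N (fun i => ¬ p i) (fun j => ¬ p j) with hSdef
        have hPq : IsQ (q.sub p hp) (q.sub p hp) P := fun i j => hN i.1 j.1
        have hBq : IsQ (q.sub p hp) (q.sub _ hp') B := fun i j => hN i.1 j.1
        have hCq : IsQ (q.sub _ hp') (q.sub p hp) C := fun i j => hN i.1 j.1
        have hSq : IsQ (q.sub _ hp') (q.sub _ hp') S := fun i j => hN i.1 j.1
        have hdetP := det_pair q i0 P hp hPq
        have hPpos : 0 < P.det := by
          rw [hdetP]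
          apply add_pos_of_pos_of_nonneg
          · have h1 : P ⟨i0, Or.inl rfl⟩ ⟨i0, Or.inl rfl⟩ = N i0 i0 := rfl
            rw [h1]
            exact lt_of_le_of_ne (mul_star_self_nonneg _)
              (mul_ne_zero h0 (star_ne_zero.mpr h0)).symm
          · exact mul_star_self_nonneg _
        have hunit : IsUnit P.det := isUnit_iff_ne_zero.mpr hPpos.ne'
        have : Invertible P := Matrix.invertibleOfIsUnitDet P hunit
        rw [Matrix.det_toBlock N p]
        rw [← hPdef, ← hBdef, ← hCdef, ← hSdef, Matrix.det_fromBlocks₁₁]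
        apply mul_nonneg hPpos.le
        have hinv : IsQ (q.sub p hp) (q.sub p hp) (⅟P) := hPq.inv (mul_invOf_self P)
        have hcard2 : Fintype.card {x // ¬ p x} < n := by
          rw [← hcard]
          apply Fintype.card_subtype_lt (x := i0)
          intro h
          exact h (Or.inl rfl)
        exact ih _ hcard2 {x // ¬ p x} rfl (q.sub _ hp') _ (hSq.sub ((hCq.mul hinv).mul hBq))
      -- perturbation
      have hcont : Continuous (fun t : ℝ => (M + (t : ℂ) • (1 : Matrix ι ι ℂ)).det) := by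
        apply Continuous.matrix_det
        fun_prop
      have hne : ∀ᶠ t : ℝ in nhdsWithin 0 {0}ᶜ, 0 ≤ (M + (t : ℂ) • (1 : Matrix ι ι ℂ)).det := by
        have h1 : ∀ᶠ t : ℝ in nhdsWithin 0 {0}ᶜ, (M i0 i0 + (t : ℂ)) ≠ 0 := by
          by_cases h : M i0 i0 = 0
          · filter_upwards [self_mem_nhdsWithin] with t ht
            rw [h, zero_add]
            exact_mod_cast ht
          · have h2 : Continuous (fun t : ℝ => M i0 i0 + (t : ℂ)) := by fun_prop
            have h3 := (h2.tendsto 0).eventually_ne (by simpa using h)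
            exact h3.filter_mono nhdsWithin_le_nhds
        filter_upwards [h1] with t ht
        apply key _ (hM.add_smul_one t)
        simpa using ht
      have hlim : Filter.Tendsto (fun t : ℝ => (M + (t : ℂ) • (1 : Matrix ι ι ℂ)).det)
          (nhdsWithin 0 {0}ᶜ) (nhds M.det) := by
        have h1 := (hcont.tendsto 0).mono_left (nhdsWithin_le_nhds (s := {0}ᶜ))
        simpa using h1
      rw [Complex.nonneg_iff]
      constructor
      · have h1 := (Complex.continuous_re.tendsto _).comp hlim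
        apply ge_of_tendsto h1
        filter_upwards [hne] with t ht
        exact (Complex.nonneg_iff.mp ht).1
      · have h1 := (Complex.continuous_im.tendsto _).comp hlim
        have h2 : Filter.Tendsto (Complex.im ∘ fun t : ℝ => (M + (t : ℂ) • (1 : Matrix ι ι ℂ)).det)
            (nhdsWithin 0 {0}ᶜ) (nhds 0) := by
          apply tendsto_const_nhds.congr'
          filter_upwards [hne] with t ht
          exact (Complex.nonneg_iff.mp ht).2
        exact tendsto_nhds_unique h2 h1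

theorem quat_det_nonneg {n : Type*} [Fintype n] [DecidableEq n] (A B : Matrix n n ℂ) :
    0 ≤ (fromBlocks A (B.map star) (-B) (A.map star)).det := by
  let q : QIdx (n ⊕ n) :=
    { τ := Sum.swap
      ε := Sum.elim (fun _ => 1) (fun _ => -1)
      inv := by intro i; rcases i with i | i <;> rfl
      ne := by intro i; rcases i with i | i <;> simp
      sgn := by intro i; rcases i with i | i <;> simp
      sq := by intro i; rcases i with i | i <;> simp }
  apply isQ_det_nonneg (Fintype.card (n ⊕ n)) (n ⊕ n) rfl q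
  intro i j
  rcases i with i | i <;> rcases j with j | j <;> simp [q]

end Pool.Agent.MP2e24f1
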