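import Pool.Agent.Lib.MP_2e24f1_ag_h13.Wick
import Pool.Agent.Lib.MP_2e24f1_ag_h13.DecDef
import Pool.Agent.Lib.MP_2e24f1_ag_h13.Quat

/-! The determinant of a decomposable system has a nonnegative top coefficient. -/

namespace Pool.Agent.MP2e24f1

open Matrix MvPolynomial
open scoped ComplexOrder

section

variable {k m : ℕ} (M N : Fin m → Fin k → Fin k → ℂ)

/-- Coefficients of the unbarred columns. -/
def cL (l : Fin k) : Fin k ⊕ Fin k → Fin m ⊕ Fin m → ℂ
  | Sum.inl i => Sum.elim (fun s => M s i l) (fun _ => 0)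
  | Sum.inr i => Sum.elim (fun _ => 0) (fun s => - N s i l)

/-- Coefficients of the barred columns. -/
def cR (l : Fin k) : Fin k ⊕ Fin k → Fin m ⊕ Fin m → ℂ
  | Sum.inl i => Sum.elim (fun _ => 0) (fun s => star (N s i l))
  | Sum.inr i => Sum.elim (fun s => star (M s i l)) (fun _ => 0)

/-- The matrix of linear forms. -/
noncomputable def bigW : Matrix (Fin k ⊕ Fin k) (Fin k ⊕ Fin k)
    (MvPolynomial ((Fin m ⊕ Fin m) ⊕ (Fin m ⊕ Fin m)) ℂ) :=
  Matrix.of fun x c => match c with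
    | Sum.inl l => ∑ u, C (cL M N l x u) * X (Sum.inl u)
    | Sum.inr l => ∑ u, C (cR M N l x u) * X (Sum.inr u)

theorem bigW_inl (x : Fin k ⊕ Fin k) (l : Fin k) :
    bigW M N x (Sum.inl l) = ∑ u, C (cL M N l x u) * X (Sum.inl u) := rfl

theorem bigW_inr (x : Fin k ⊕ Fin k) (l : Fin k) :
    bigW M N x (Sum.inr l) = ∑ u, C (cR M N l x u) * X (Sum.inr u) := rfl

theorem bigW_nonneg : 0 ≤ gL (Fin m ⊕ Fin m) ℂ (bigW M N).det := by
  apply gL_nonneg (LinearMap.id : ℂ →ₗ[ℂ] ℂ)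
  intro u
  rw [LinearMap.id_apply]
  have h1 : evu ℂ u (bigW M N).det = ((bigW M N).map (evu ℂ u)).det := by
    have := (evu ℂ u).toRingHom.map_det (bigW M N)
    exact this
  rw [h1]
  let A : Matrix (Fin k) (Fin k) ℂ := Matrix.of fun i l => ∑ s, M s i l * u (Sum.inl s)
  let B : Matrix (Fin k) (Fin k) ℂ := Matrix.of fun i l => ∑ s, N s i l * u (Sum.inr s)
  have h2 : (bigW M N).map (evu ℂ u) = fromBlocks A (B.map star) (-B) (A.map star) := by
    ext (i | i) (l | l) : 1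
    · simp [bigW_inl, cL, A, evu_inl]
    · simp [bigW_inr, cR, B, evu_inr]
    · simp [bigW_inl, cL, B, evu_inl]
    · simp [bigW_inr, cR, A, evu_inr]
  rw [h2]
  exact quat_det_nonneg A B

theorem gL_bigW (K : Fin k → Fin k → Matrix (Fin k) (Fin k) ℂ)
    (hK : ∀ a b j l, K a b j l = ∑ s, (star (M s a j) * M s b l + star (N s b j) * N s a l)) :
    gL (Fin m ⊕ Fin m) ℂ (bigW M N).det =
      ∑ π : Equiv.Perm (Fin k), sg π * ∑ a : Fin k → Fin k, ∑ b : Fin k → Fin k,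
        (∏ i, K (a i) (b i) (π i) i) * (eps a * eps b) := by
  have h1 : ∀ σ : Equiv.Perm (Fin k ⊕ Fin k),
      (((Equiv.Perm.sign σ : ℤ) : MvPolynomial ((Fin m ⊕ Fin m) ⊕ (Fin m ⊕ Fin m)) ℂ)) =
      C (sg σ) := by
    intro σ
    unfold sg
    rw [map_intCast]
  have h2 : gL (Fin m ⊕ Fin m) ℂ (bigW M N).det =
      ∑ σ : Equiv.Perm (Fin k ⊕ Fin k), ∑ π : Equiv.Perm (Fin k), sg σ *
        ∏ l, ∑ u, cL M N l (σ (Sum.inl l)) u * cR M N (π l) (σ (Sum.inr (π l))) u := by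
    rw [Matrix.det_apply', map_sum]
    apply Finset.sum_congr rfl
    intro σ _
    rw [h1, gL_C_mul, Fintype.prod_sum_type]
    simp only [bigW_inl, bigW_inr]
    rw [wick k (fun l => cL M N l (σ (Sum.inl l))) (fun l => cR M N l (σ (Sum.inr l))),
      Finset.mul_sum]
  rw [h2, Finset.sum_comm]
  apply Finset.sum_congr rfl
  intro π _
  rw [← Equiv.sum_comp (Equiv.mulRight (Equiv.Perm.sumCongr 1 π⁻¹))]
  have hq : ∀ i, π⁻¹ (π i) = i := fun i => by
    rw [← Equiv.Perm.mul_apply, inv_mul_cancel, Equiv.Perm.one_apply]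
  have h3 : ∀ σ : Equiv.Perm (Fin k ⊕ Fin k),
      sg (Equiv.mulRight (Equiv.Perm.sumCongr 1 π⁻¹) σ) * ∏ l, ∑ u,
        cL M N l ((Equiv.mulRight (Equiv.Perm.sumCongr 1 π⁻¹) σ) (Sum.inl l)) u *
        cR M N (π l) ((Equiv.mulRight (Equiv.Perm.sumCongr 1 π⁻¹) σ) (Sum.inr (π l))) u =
      sg π * (sg σ * ∏ l, ∑ u,
        cL M N l (σ (Sum.inl l)) u * cR M N (π l) (σ (Sum.inr l)) u) := by
    intro σ
    have e1 : sg (Equiv.Perm.sumCongr (1 : Equiv.Perm (Fin k)) π⁻¹) = sg π := by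
      unfold sg
      rw [Equiv.Perm.sign_sumCongr, Equiv.Perm.sign_one, Equiv.Perm.sign_inv, one_mul]
    simp only [Equiv.coe_mulRight, sg_mul, e1, Equiv.Perm.mul_apply, Equiv.Perm.sumCongr_apply,
      Sum.map_inl, Sum.map_inr, hq, Equiv.Perm.one_apply]
    ring
  simp only [h3]
  rw [← Finset.mul_sum]
  congr 1
  have h4 := TT_eq (fun l x y => ∑ u, cL M N l x u * cR M N (π l) y u)
    (by intro l i j; simp [cL, cR]) (by intro l i j; simp [cL, cR])
  unfold TT at h4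
  rw [h4]
  apply Finset.sum_congr rfl
  intro a _
  apply Finset.sum_congr rfl
  intro b _
  congr 1
  apply Finset.prod_congr rfl
  intro l _
  rw [hK]
  simp only [cL, cR, Fintype.sum_sum_type, Sum.elim_inl, Sum.elim_inr, mul_zero,
    Finset.sum_const_zero, add_zero, zero_add, Finset.sum_add_distrib]
  simp only [neg_mul, Finset.sum_neg_distrib, sub_neg_eq_add]
  congr 1
  · apply Finset.sum_congr rfl
    intro s _
    ring
  · apply Finset.sum_congr rfl
    intro s _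
    ring

end

theorem topCoeff_det {k : ℕ} (K : Fin k → Fin k → Matrix (Fin k) (Fin k) ℂ) :
    topCoeff k (sysLin K).det =
      ∑ π : Equiv.Perm (Fin k), sg π * ∑ a : Fin k → Fin k, ∑ b : Fin k → Fin k,
        (∏ i, K (π i) i (a i) (b i)) * (eps a * eps b) := by
  rw [Matrix.det_apply', map_sum]
  apply Finset.sum_congr rfl
  intro π _
  have h1 : (((Equiv.Perm.sign π : ℤ) : PolyForms k)) = C (sg π) := by
    unfold sg
    rw [map_intCast]
  rw [h1, ← smul_eq_C_mul, map_smul, smul_eq_mul]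
  congr 1
  exact topCoeff_prod_lin (fun i => K (π i) i)

theorem IsDec.topCoeff_det_nonneg {k : ℕ} {γ : Type} [Fintype γ] [DecidableEq γ]
    (hγ : Fintype.card γ = k) {K : γ → γ → Matrix (Fin k) (Fin k) ℂ} (hK : IsDec K) :
    0 ≤ topCoeff k (sysLin K).det := by
  obtain ⟨m, M, N, h⟩ := hK
  let e : Fin k ≃ γ := (Fintype.equivFinOfCardEq hγ).symm
  let K' : Fin k → Fin k → Matrix (Fin k) (Fin k) ℂ := fun a b => K (e a) (e b)
  have h1 : (sysLin K).det = (sysLin K').det := by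
    rw [← Matrix.det_submatrix_equiv_self e (sysLin K)]
    rfl
  rw [h1, topCoeff_det, mix_eq (fun a b j l => K' a b j l),
    ← gL_bigW (fun s a j => M s (e a) j) (fun s a j => N s (e a) j) K' (fun a b j l => h _ _ _ _)]
  exact bigW_nonneg _ _

end Pool.Agent.MP2e24f1
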