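import Pool.Agent.Lib.MP_2e24f1_ag.Defs

/-! Decomposable semipositivity of the Chern curvature. -/

namespace Pool.Agent.MP2e24f1

open scoped ComplexOrder

/-- Nakano semipositivity of a tensor `P_{jk,ac}` (indices: `dz_j`, `dz̄_k`, `e_a`, `ē_c`):
`∑ u_ja P_{jk,ac} conj(u_kc) ≥ 0` for all `u`. -/
def IsNakanoSemipositive {d r : ℕ} (P : Fin d → Fin d → Matrix (Fin r) (Fin r) ℂ) : Prop :=
  ∀ u : Fin d → Fin r → ℂ, 0 ≤ ∑ j, ∑ k, ∑ a, ∑ c, u j a * P j k a c * star (u k c)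

/-- Dual Nakano semipositivity of a tensor `Q_{jk,ac}`:
`∑ u_jc Q_{jk,ac} conj(u_ka) ≥ 0` for all `u`. -/
def IsDualNakanoSemipositive {d r : ℕ} (Q : Fin d → Fin d → Matrix (Fin r) (Fin r) ℂ) : Prop :=
  ∀ u : Fin d → Fin r → ℂ, 0 ≤ ∑ j, ∑ k, ∑ a, ∑ c, u j c * Q j k a c * star (u k a)

/-- Decomposable semipositivity at `x`: the tensor
`⟨Θ(∂/∂z_j, ∂/∂z̄_k) e_a, e_c⟩ = ∑_b Θ_{jk,ab} h_bc` is the sum of a Nakano semipositive tensor and
of a dual Nakano semipositive tensor. -/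
def DecomposablySemipositiveAt {d r : ℕ} (h : (Fin d → ℂ) → Matrix (Fin r) (Fin r) ℂ)
    (x : Fin d → ℂ) : Prop :=
  ∃ P Q : Fin d → Fin d → Matrix (Fin r) (Fin r) ℂ,
    IsNakanoSemipositive P ∧ IsDualNakanoSemipositive Q ∧
      ∀ j k a c, ∑ b, curvature h x j k a b * h x b c = P j k a c + Q j k a c

end Pool.Agent.MP2e24f1
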