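import Pool.Agent.Lib.MP_2e24f1_ag.Final
import Pool.Agent.Lib.MP_2e24f1_ag_h13.DecDef
import Pool.Agent.Lib.MP_2e24f1_ag_h13.DecPos

/-! From decomposable curvature to decomposable systems. -/

namespace Pool.Agent.MP2e24f1

open Matrix
open scoped ComplexOrder

theorem isDec_of_fintype {ι S : Type*} [Fintype S] {k : ℕ}
    (K : ι → ι → Matrix (Fin k) (Fin k) ℂ) (M N : S → ι → Fin k → ℂ)
    (h : ∀ a b j l, K a b j l =
      ∑ s, (star (M s a j) * M s b l + star (N s b j) * N s a l)) : IsDec K := by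
  let e := Fintype.equivFin S
  refine ⟨Fintype.card S, fun s => M (e.symm s), fun s => N (e.symm s), ?_⟩
  intro a b j l
  rw [h]
  exact (Equiv.sum_comp e.symm
    (fun s => star (M s a j) * M s b l + star (N s b j) * N s a l)).symm

/-- Factorisation of a nonnegative form. -/
theorem exists_gram {κ : Type*} [Fintype κ] [DecidableEq κ] (M : Matrix κ κ ℂ)
    (h : ∀ x : κ → ℂ, 0 ≤ ∑ p, ∑ q, star (x p) * x q * M p q) :
    ∃ B : Matrix κ κ ℂ, ∀ p q, M p q = ∑ s, star (B s p) * B s q := by
  obtain ⟨U, d, hd, -, -, hA⟩ := psd_spectral M (psd_of_nonneg M h)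
  have hs : ∀ i, (d i : ℂ) = star ((Real.sqrt (d i) : ℝ) : ℂ) * ((Real.sqrt (d i) : ℝ) : ℂ) := by
    intro i
    have h1 : star ((Real.sqrt (d i) : ℝ) : ℂ) = ((Real.sqrt (d i) : ℝ) : ℂ) :=
      Complex.conj_ofReal _
    rw [h1, ← Complex.ofReal_mul, Real.mul_self_sqrt (hd i)]
  refine ⟨Matrix.of fun s q => ((Real.sqrt (d s) : ℝ) : ℂ) * star (U q s), ?_⟩
  intro p q
  rw [hA, Matrix.mul_apply]
  apply Finset.sum_congr rfl
  intro s _
  rw [Matrix.mul_diagonal, Matrix.conjTranspose_apply, Matrix.of_apply, Matrix.of_apply, hs,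
    star_mul', star_star]
  ring

theorem nakano_gram {d r : ℕ} {P : Fin d → Fin d → Matrix (Fin r) (Fin r) ℂ}
    (hP : IsNakanoSemipositive P) : ∃ B : (Fin d × Fin r) → (Fin d × Fin r) → ℂ,
      ∀ j l c e, P j l c e = ∑ s, star (B s (j, c)) * B s (l, e) := by
  obtain ⟨B, hB⟩ := exists_gram (κ := Fin d × Fin r)
    (Matrix.of fun p q => P p.1 q.1 p.2 q.2) (by
      intro x
      have h1 := hP (fun j a => star (x (j, a)))
      have h2 : ∑ p : Fin d × Fin r, ∑ q : Fin d × Fin r, star (x p) * x q *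
          (Matrix.of fun p q : Fin d × Fin r => P p.1 q.1 p.2 q.2) p q =
          ∑ j, ∑ k, ∑ a, ∑ c, star (x (j, a)) * P j k a c * star (star (x (k, c))) := by
        rw [Fintype.sum_prod_type]
        apply Finset.sum_congr rfl
        intro j _
        calc ∑ a, ∑ q : Fin d × Fin r, star (x (j, a)) * x q *
              (Matrix.of fun p q : Fin d × Fin r => P p.1 q.1 p.2 q.2) (j, a) q
            = ∑ a, ∑ k, ∑ c, star (x (j, a)) * P j k a c * star (star (x (k, c))) := by
              apply Finset.sum_congr rfl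
              intro a _
              rw [Fintype.sum_prod_type]
              apply Finset.sum_congr rfl
              intro k _
              apply Finset.sum_congr rfl
              intro c _
              rw [star_star, Matrix.of_apply]
              ring
          _ = _ := Finset.sum_comm
      rw [h2]
      exact h1)
  exact ⟨B, fun j l c e => hB (j, c) (l, e)⟩

theorem dualNakano_gram {d r : ℕ} {Q : Fin d → Fin d → Matrix (Fin r) (Fin r) ℂ}
    (hQ : IsDualNakanoSemipositive Q) : ∃ B : (Fin d × Fin r) → (Fin d × Fin r) → ℂ,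
      ∀ j l c e, Q j l c e = ∑ s, star (B s (j, e)) * B s (l, c) := by
  have h1 : IsNakanoSemipositive (fun j k => (Q j k)ᵀ) := by
    intro u
    have h2 := hQ u
    have h3 : ∑ j, ∑ k, ∑ a, ∑ c, u j a * (Q j k)ᵀ a c * star (u k c) =
        ∑ j, ∑ k, ∑ a, ∑ c, u j c * Q j k a c * star (u k a) := by
      apply Finset.sum_congr rfl
      intro j _
      apply Finset.sum_congr rfl
      intro k _
      rw [Finset.sum_comm]
      rfl
    rw [h3]
    exact h2
  obtain ⟨B, hB⟩ := nakano_gram h1
  exact ⟨B, fun j l c e => hB j l e c⟩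

theorem gauge_entry {d r k : ℕ} (Θ : Fin d → Fin d → Matrix (Fin r) (Fin r) ℂ)
    (H W : Matrix (Fin r) (Fin r) ℂ) (L : Matrix (Fin d) (Fin k) ℂ) (a b : Fin r) (p q : Fin k) :
    gauge (fun a b => Lᵀ * KTheta Θ a b * L.map star) Wᴴ (H * W) a b p q =
      ∑ j, ∑ l, ∑ c, ∑ e, star (W c a) * W e b * L j p * star (L l q) *
        (∑ f, Θ j l c f * H f e) := by
  unfold gauge
  simp only [Matrix.sum_apply, Matrix.smul_apply, smul_eq_mul]
  have h1 : ∀ c f : Fin r, (Lᵀ * KTheta Θ c f * L.map star) p q =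
      ∑ j, ∑ l, L j p * star (L l q) * Θ j l c f := by
    intro c f
    simp only [KTheta, Matrix.mul_apply, Matrix.transpose_apply, Matrix.of_apply,
      Matrix.map_apply, Finset.sum_mul]
    rw [Finset.sum_comm]
    apply Finset.sum_congr rfl
    intro j _
    apply Finset.sum_congr rfl
    intro l _
    ring
  simp only [h1, Matrix.conjTranspose_apply, Matrix.mul_apply, Finset.mul_sum, Finset.sum_mul]
  -- c f j l e → j l c e f
  calc ∑ c, ∑ f, ∑ j, ∑ l, ∑ e, star (W c a) * (H f e * W e b) * (L j p * star (L l q) * Θ j l c f)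
      = ∑ c, ∑ j, ∑ f, ∑ l, ∑ e,
          star (W c a) * (H f e * W e b) * (L j p * star (L l q) * Θ j l c f) := by
        apply Finset.sum_congr rfl
        intro c _
        rw [Finset.sum_comm]
    _ = ∑ j, ∑ c, ∑ f, ∑ l, ∑ e,
          star (W c a) * (H f e * W e b) * (L j p * star (L l q) * Θ j l c f) := Finset.sum_comm
    _ = ∑ j, ∑ c, ∑ l, ∑ f, ∑ e,
          star (W c a) * (H f e * W e b) * (L j p * star (L l q) * Θ j l c f) := by
        apply Finset.sum_congr rfl
        intro j _
        apply Finset.sum_congr rfl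
        intro c _
        rw [Finset.sum_comm]
    _ = ∑ j, ∑ l, ∑ c, ∑ f, ∑ e,
          star (W c a) * (H f e * W e b) * (L j p * star (L l q) * Θ j l c f) := by
        apply Finset.sum_congr rfl
        intro j _
        rw [Finset.sum_comm]
    _ = _ := by
        apply Finset.sum_congr rfl
        intro j _
        apply Finset.sum_congr rfl
        intro l _
        apply Finset.sum_congr rfl
        intro c _
        rw [Finset.sum_comm]
        apply Finset.sum_congr rfl
        intro e _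
        apply Finset.sum_congr rfl
        intro f _
        ring

theorem sum_four_comm {d r : ℕ} (f : Fin d → Fin d → Fin r → Fin r → ℂ)
    (F G : Fin d → Fin r → ℂ) (h : ∀ j l c e, f j l c e = F j c * G l e) :
    ∑ j, ∑ l, ∑ c, ∑ e, f j l c e = (∑ x : Fin d × Fin r, F x.1 x.2) * ∑ x : Fin d × Fin r, G x.1 x.2 := by
  rw [Fintype.sum_prod_type, Fintype.sum_prod_type, Finset.sum_mul_sum]
  apply Finset.sum_congr rfl
  intro j _
  apply Finset.sum_congr rfl
  intro l _
  rw [Finset.sum_mul_sum]
  apply Finset.sum_congr rfl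
  intro c _
  apply Finset.sum_congr rfl
  intro e _
  exact h j l c e

theorem sum_four_comm' {d r : ℕ} (f : Fin d → Fin d → Fin r → Fin r → ℂ)
    (F G : Fin d → Fin r → ℂ) (h : ∀ j l c e, f j l c e = F j e * G l c) :
    ∑ j, ∑ l, ∑ c, ∑ e, f j l c e = (∑ x : Fin d × Fin r, F x.1 x.2) * ∑ x : Fin d × Fin r, G x.1 x.2 := by
  have h1 := sum_four_comm (fun j l c e => f j l e c) F G (fun j l c e => h j l e c)
  rw [← h1]
  apply Finset.sum_congr rfl
  intro j _
  apply Finset.sum_congr rfl
  intro l _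
  exact Finset.sum_comm

/-- The gauge transformed system of a decomposable curvature tensor is decomposable. -/
theorem isDec_gauge {d r k : ℕ} (Θ P Q : Fin d → Fin d → Matrix (Fin r) (Fin r) ℂ)
    (H W : Matrix (Fin r) (Fin r) ℂ) (hP : IsNakanoSemipositive P)
    (hQ : IsDualNakanoSemipositive Q)
    (hdec : ∀ j l a c, ∑ b, Θ j l a b * H b c = P j l a c + Q j l a c)
    (L : Matrix (Fin d) (Fin k) ℂ) :
    IsDec (gauge (fun a b => Lᵀ * KTheta Θ a b * L.map star) Wᴴ (H * W)) := by
  obtain ⟨B, hB⟩ := nakano_gram hP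
  obtain ⟨B', hB'⟩ := dualNakano_gram hQ
  apply isDec_of_fintype (S := Fin d × Fin r) _
    (fun s a q => ∑ x : Fin d × Fin r, W x.2 a * star (L x.1 q) * B s (x.1, x.2))
    (fun s a q => ∑ x : Fin d × Fin r, star (W x.2 a) * star (L x.1 q) * B' s (x.1, x.2))
  intro a b p q
  rw [gauge_entry]
  simp only [hdec, mul_add, Finset.sum_add_distrib, hB, hB']
  congr 1
  · simp only [Finset.mul_sum]
    have h1 : ∑ j, ∑ l, ∑ c, ∑ e, ∑ s, star (W c a) * W e b * L j p * star (L l q) *
        (star (B s (j, c)) * B s (l, e)) = ∑ s, ∑ j, ∑ l, ∑ c, ∑ e,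
        star (W c a) * W e b * L j p * star (L l q) * (star (B s (j, c)) * B s (l, e)) := by
      have e1 : ∀ j l c, ∑ e, ∑ s, star (W c a) * W e b * L j p * star (L l q) *
          (star (B s (j, c)) * B s (l, e)) = ∑ s, ∑ e, star (W c a) * W e b * L j p *
          star (L l q) * (star (B s (j, c)) * B s (l, e)) := fun j l c => Finset.sum_comm
      simp only [e1]
      have e2 : ∀ j l, ∑ c, ∑ s, ∑ e, star (W c a) * W e b * L j p * star (L l q) *
          (star (B s (j, c)) * B s (l, e)) = ∑ s, ∑ c, ∑ e, star (W c a) * W e b * L j p *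
          star (L l q) * (star (B s (j, c)) * B s (l, e)) := fun j l => Finset.sum_comm
      simp only [e2]
      have e3 : ∀ j, ∑ l, ∑ s, ∑ c, ∑ e, star (W c a) * W e b * L j p * star (L l q) *
          (star (B s (j, c)) * B s (l, e)) = ∑ s, ∑ l, ∑ c, ∑ e, star (W c a) * W e b * L j p *
          star (L l q) * (star (B s (j, c)) * B s (l, e)) := fun j => Finset.sum_comm
      simp only [e3]
      exact Finset.sum_comm
    rw [h1]
    apply Finset.sum_congr rfl
    intro s _
    rw [sum_four_comm _ (fun j c => star (W c a) * L j p * star (B s (j, c)))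
      (fun l e => W e b * star (L l q) * B s (l, e)) (fun j l c e => by ring)]
    simp only [star_sum]
    rw [← Finset.mul_sum]
    congr 1
    apply Finset.sum_congr rfl
    intro x _
    rw [star_mul', star_mul', star_star]
  · simp only [Finset.mul_sum]
    have h1 : ∑ j, ∑ l, ∑ c, ∑ e, ∑ s, star (W c a) * W e b * L j p * star (L l q) *
        (star (B' s (j, e)) * B' s (l, c)) = ∑ s, ∑ j, ∑ l, ∑ c, ∑ e,
        star (W c a) * W e b * L j p * star (L l q) * (star (B' s (j, e)) * B' s (l, c)) := by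
      have e1 : ∀ j l c, ∑ e, ∑ s, star (W c a) * W e b * L j p * star (L l q) *
          (star (B' s (j, e)) * B' s (l, c)) = ∑ s, ∑ e, star (W c a) * W e b * L j p *
          star (L l q) * (star (B' s (j, e)) * B' s (l, c)) := fun j l c => Finset.sum_comm
      simp only [e1]
      have e2 : ∀ j l, ∑ c, ∑ s, ∑ e, star (W c a) * W e b * L j p * star (L l q) *
          (star (B' s (j, e)) * B' s (l, c)) = ∑ s, ∑ c, ∑ e, star (W c a) * W e b * L j p *
          star (L l q) * (star (B' s (j, e)) * B' s (l, c)) := fun j l => Finset.sum_comm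
      simp only [e2]
      have e3 : ∀ j, ∑ l, ∑ s, ∑ c, ∑ e, star (W c a) * W e b * L j p * star (L l q) *
          (star (B' s (j, e)) * B' s (l, c)) = ∑ s, ∑ l, ∑ c, ∑ e, star (W c a) * W e b * L j p *
          star (L l q) * (star (B' s (j, e)) * B' s (l, c)) := fun j => Finset.sum_comm
      simp only [e3]
      exact Finset.sum_comm
    rw [h1]
    apply Finset.sum_congr rfl
    intro s _
    rw [sum_four_comm' _ (fun j e => W e b * L j p * star (B' s (j, e)))
      (fun l c => star (W c a) * star (L l q) * B' s (l, c)) (fun j l c e => by ring)]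
    simp only [star_sum]
    rw [← Finset.mul_sum]
    congr 1
    apply Finset.sum_congr rfl
    intro x _
    rw [star_mul', star_mul', star_star, star_star]

theorem schur_positive_dec {d r k : ℕ} (Θ P Q : Fin d → Fin d → Matrix (Fin r) (Fin r) ℂ)
    (H : Matrix (Fin r) (Fin r) ℂ) (hH : H.PosDef) (hP : IsNakanoSemipositive P)
    (hQ : IsDualNakanoSemipositive Q)
    (hdec : ∀ j l a c, ∑ b, Θ j l a b * H b c = P j l a c + Q j l a c)
    (σ : Fin k → ℕ) (hσ : ∑ i, σ i = k)
    (hcov : ∀ K : Fin r → Fin r → Matrix (Fin k) (Fin k) ℂ, IsDec K →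
      0 ≤ topCoeff k (sdet (eZ (sysLin K)) σ)) (L : Matrix (Fin d) (Fin k) ℂ) :
    ∃ c : ℝ, 0 ≤ c ∧ pullback L (schurForm Θ σ) = (c : ℂ) • vol k := by
  obtain ⟨W, hW, hWH⟩ := exists_whiten hH
  let K : Fin r → Fin r → Matrix (Fin k) (Fin k) ℂ := fun a b => Lᵀ * KTheta Θ a b * L.map star
  have hK : IsDec (gauge K Wᴴ (H * W)) := isDec_gauge Θ P Q H W hP hQ hdec L
  have h3 := hcov _ hK
  have h4 : eZ (sysLin (gauge K Wᴴ (H * W))) = eZ (sysLin K) := by
    funext n
    apply eZ_gauge
    rw [← Matrix.mul_assoc]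
    exact hWH
  rw [h4] at h3
  have h5 := Complex.nonneg_iff.mp h3
  refine ⟨Real.pi⁻¹ ^ k * (topCoeff k (sdet (eZ (sysLin K)) σ)).re, ?_, ?_⟩
  · apply mul_nonneg
    · have := Real.pi_pos
      positivity
    · exact h5.1
  · rw [pullback_schurForm Θ σ hσ L]
    congr 1
    have h6 : (((topCoeff k (sdet (eZ (sysLin K)) σ)).re : ℝ) : ℂ) =
        topCoeff k (sdet (eZ (sysLin K)) σ) := by
      apply Complex.ext
      · simp
      · simpa using h5.2
    push_cast
    rw [h6]

end Pool.Agent.MP2e24f1
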