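import Pool.Agent.Lib.MP_2e24f1_ag_h13.Zonal

/-! Bordered determinants, pencils and the positivity step. -/

namespace Pool.Agent.MP2e24f1

open Matrix

section border

variable {n S : Type*} [Fintype n] [DecidableEq n] [CommRing S]

theorem det_border_aux (A : Matrix n n S) (b : Matrix n Unit S) (c : Matrix Unit n S)
    (hA : IsLeftRegular A.det) :
    (fromBlocks A b c (0 : Matrix Unit Unit S)).det = -(c * A.adjugate * b) () () := by
  have h1 : fromBlocks A b c (0 : Matrix Unit Unit S) *
      fromBlocks (1 : Matrix n n S) (-(A.adjugate * b)) 0 (A.det • (1 : Matrix Unit Unit S)) =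
      fromBlocks A 0 c (-(c * A.adjugate * b)) := by
    rw [fromBlocks_multiply]
    congr 1
    · simp
    · rw [Matrix.mul_neg, ← Matrix.mul_assoc, mul_adjugate]
      simp
    · simp
    · simp [Matrix.mul_assoc]
  have h2 := congrArg Matrix.det h1
  rw [det_mul, det_fromBlocks_zero₂₁, det_fromBlocks_zero₁₂, det_one, one_mul, det_smul, det_one,
    Fintype.card_unit, pow_one, mul_one, mul_comm] at h2
  have h3 := hA h2
  rw [h3, det_unique]
  rfl

theorem det_border (A : Matrix n n S) (b : Matrix n Unit S) (c : Matrix Unit n S) :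
    (fromBlocks A b c (0 : Matrix Unit Unit S)).det = -(c * A.adjugate * b) () () := by
  let g : Matrix n n (Polynomial S) := A.map Polynomial.C + (Polynomial.X : Polynomial S) • 1
  let f : Polynomial S →+* S := Polynomial.evalRingHom 0
  have hg : f.mapMatrix g = A := by
    ext i j
    simp [f, g]
  have hu : IsRegular g.det := by
    refine Polynomial.Monic.isRegular ?_
    simp only [g, Polynomial.Monic.def, ← Polynomial.leadingCoeff_det_X_one_add_C A, add_comm]
  have h1 := congrArg f (det_border_aux g (b.map Polynomial.C) (c.map Polynomial.C) hu.left)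
  rw [f.map_det, map_neg] at h1
  have h2 : f.mapMatrix (fromBlocks g (b.map Polynomial.C) (c.map Polynomial.C)
      (0 : Matrix Unit Unit (Polynomial S))) = fromBlocks A b c 0 := by
    rw [RingHom.mapMatrix_apply, fromBlocks_map]
    congr 1
    · ext i j
      simp [f]
    · ext i j
      simp [f]
    · ext i j
      simp
  have h3 : f ((c.map Polynomial.C * g.adjugate * b.map Polynomial.C) () ()) =
      (c * A.adjugate * b) () () := by
    have h4 : f.mapMatrix g.adjugate = A.adjugate := by
      rw [f.map_adjugate, hg]
    rw [← h4]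
    simp only [Matrix.mul_apply, map_sum, map_mul, RingHom.mapMatrix_apply, Matrix.map_apply]
    simp [f]
  rw [h2, h3] at h1
  exact h1

end border

section pencil

variable {ν ι S : Type*} [Fintype ν] [DecidableEq ν] [Fintype ι] [DecidableEq ι] [CommRing S]
  (P : Matrix ν ν S) (J : Matrix ν ι S) (J' : Matrix ι ν S) (Y : Matrix ι ι S)

/-- A pencil of matrices. -/
noncomputable def pen (t : S) : Matrix ν ν S := P + t • (J * Y * J')

/-- The pencil with an indeterminate. -/
noncomputable def penX : Matrix ν ν (Polynomial S) :=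
  P.map Polynomial.C + (Polynomial.X : Polynomial S) • (J * Y * J').map Polynomial.C

/-- The compressed adjugate of the pencil. -/
noncomputable def penW (t : S) : Matrix ι ι S := J' * (pen P J J' Y t).adjugate * J * Y

/-- The compressed adjugate of the pencil with an indeterminate. -/
noncomputable def penWX : Matrix ι ι (Polynomial S) :=
  J'.map Polynomial.C * (penX P J J' Y).adjugate * J.map Polynomial.C * Y.map Polynomial.C

variable {T : Type*} [CommRing T] (f : S →+* T) (t : T)

theorem penX_map : (penX P J J' Y).map (Polynomial.eval₂RingHom f t) =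
    pen (P.map f) (J.map f) (J'.map f) (Y.map f) t := by
  unfold penX pen
  have h : J.map f * Y.map f * J'.map f = (J * Y * J').map f := by
    rw [Matrix.map_mul, Matrix.map_mul]
  rw [h]
  generalize J * Y * J' = N
  ext i j
  simp
  ring

theorem penX_map_det : (penX P J J' Y).det.eval₂ f t =
    (pen (P.map f) (J.map f) (J'.map f) (Y.map f) t).det := by
  rw [← penX_map]
  exact (Polynomial.eval₂RingHom f t).map_det _

theorem penWX_map : (penWX P J J' Y).map (Polynomial.eval₂RingHom f t) =
    penW (P.map f) (J.map f) (J'.map f) (Y.map f) t := by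
  unfold penWX penW
  rw [Matrix.map_mul, Matrix.map_mul, Matrix.map_mul]
  have h1 : (penX P J J' Y).adjugate.map (Polynomial.eval₂RingHom f t) =
      (pen (P.map f) (J.map f) (J'.map f) (Y.map f) t).adjugate := by
    rw [← penX_map]
    exact (Polynomial.eval₂RingHom f t).map_adjugate _
  have h2 : (J'.map Polynomial.C).map (Polynomial.eval₂RingHom f t) = J'.map f := by
    ext i j
    simp
  have h3 : (J.map Polynomial.C).map (Polynomial.eval₂RingHom f t) = J.map f := by
    ext i j
    simp
  have h4 : (Y.map Polynomial.C).map (Polynomial.eval₂RingHom f t) = Y.map f := by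
    ext i j
    simp
  rw [h1, h2, h3, h4]

theorem penX_eval_det (t : S) : (penX P J J' Y).det.eval t = (pen P J J' Y t).det := by
  have h := penX_map_det P J J' Y (RingHom.id S) t
  have e1 : P.map (RingHom.id S) = P := by ext i j; simp
  have e2 : J.map (RingHom.id S) = J := by ext i j; simp
  have e3 : J'.map (RingHom.id S) = J' := by ext i j; simp
  have e4 : Y.map (RingHom.id S) = Y := by ext i j; simp
  rw [e1, e2, e3, e4] at h
  exact h

theorem penW_trace (t : S) :
    (penW P J J' Y t).trace = (Polynomial.derivative (penX P J J' Y).det).eval t := by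
  rw [derivative_det]
  have h1 : (penX P J J' Y).map (fun p => Polynomial.derivative p) =
      (J * Y * J').map Polynomial.C := by
    unfold penX
    generalize J * Y * J' = N
    ext i j : 2
    simp
  rw [h1]
  have h2 : (((penX P J J' Y).adjugate * (J * Y * J').map Polynomial.C).trace).eval t =
      (((penX P J J' Y).adjugate.map (Polynomial.eval t)) * (J * Y * J')).trace := by
    unfold Matrix.trace
    rw [Polynomial.eval_finsetSum]
    apply Finset.sum_congr rfl
    intro i _
    simp only [Matrix.diag_apply, Matrix.mul_apply, Polynomial.eval_finsetSum,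
      Polynomial.eval_mul, Matrix.map_apply, Polynomial.eval_C]
  rw [h2]
  have h3 : (penX P J J' Y).adjugate.map (Polynomial.eval t) = (pen P J J' Y t).adjugate := by
    have h4 : (penX P J J' Y).map (Polynomial.evalRingHom t) = pen P J J' Y t := by
      unfold penX pen
      generalize J * Y * J' = N
      ext i j
      simp
      ring
    rw [← h4]
    exact (Polynomial.evalRingHom t).map_adjugate _
  rw [h3]
  unfold penW
  rw [Matrix.mul_assoc, Matrix.mul_assoc, Matrix.trace_mul_comm]
  congr 1
  simp only [Matrix.mul_assoc]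

theorem penW_mul (s t : S) : (s - t) • (penW P J J' Y s * penW P J J' Y t) =
    (penX P J J' Y).det.eval s • penW P J J' Y t - (penX P J J' Y).det.eval t • penW P J J' Y s := by
  rw [penX_eval_det, penX_eval_det]
  have h1 : (pen P J J' Y s).adjugate * (pen P J J' Y s) * (pen P J J' Y t).adjugate -
      (pen P J J' Y s).adjugate * (pen P J J' Y t) * (pen P J J' Y t).adjugate =
      (s - t) • ((pen P J J' Y s).adjugate * (J * Y * J') * (pen P J J' Y t).adjugate) := by
    rw [← Matrix.sub_mul, ← Matrix.mul_sub]
    have : pen P J J' Y s - pen P J J' Y t = (s - t) • (J * Y * J') := by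
      unfold pen
      rw [sub_smul]
      abel
    rw [this, Matrix.mul_smul, Matrix.smul_mul]
  rw [adjugate_mul, Matrix.mul_assoc _ (pen P J J' Y t), mul_adjugate, Matrix.smul_mul,
    Matrix.one_mul, Matrix.mul_smul, Matrix.mul_one] at h1
  have h2 := congrArg (fun M => J' * M * J * Y) h1
  simp only [Matrix.mul_sub, Matrix.sub_mul, Matrix.mul_smul, Matrix.smul_mul] at h2
  unfold penW
  rw [h2]
  congr 1
  simp only [Matrix.mul_assoc]

end pencil

section coef

variable {R : Type*} [CommRing R]

theorem eval₂_X_eq (l : ℕ) (i : Fin l) (p : Polynomial R) (N : ℕ) (hN : p.natDegree < N) :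
    p.eval₂ (MvPolynomial.C : R →+* MvPolynomial (Fin l) R) (MvPolynomial.X i) =
      ∑ n ∈ Finset.range N, MvPolynomial.monomial (Finsupp.single i n) (p.coeff n) := by
  rw [Polynomial.eval₂_eq_sum_range' _ hN]
  apply Finset.sum_congr rfl
  intro n _
  rw [← MvPolynomial.C_mul_X_pow_eq_monomial]

theorem coeff_prod_eval₂ {l : ℕ} (p : Fin l → Polynomial R) (m : Fin l →₀ ℕ) :
    MvPolynomial.coeff m (∏ i, (p i).eval₂ (MvPolynomial.C : R →+* MvPolynomial (Fin l) R)
      (MvPolynomial.X i)) = ∏ i, (p i).coeff (m i) := by
  obtain ⟨N, hN⟩ : ∃ N, ∀ i, (p i).natDegree < N := by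
    refine ⟨(∑ i, (p i).natDegree) + 1, fun i => ?_⟩
    have := Finset.single_le_sum (f := fun i => (p i).natDegree) (fun i _ => Nat.zero_le _)
      (Finset.mem_univ i)
    omega
  simp only [fun i => eval₂_X_eq l i (p i) N (hN i)]
  rw [Finset.prod_univ_sum, MvPolynomial.coeff_sum]
  have h1 : ∀ n : Fin l → ℕ, ∏ i, MvPolynomial.monomial (Finsupp.single i (n i)) ((p i).coeff (n i))
      = MvPolynomial.monomial (Finsupp.equivFunOnFinite.symm n) (∏ i, (p i).coeff (n i)) := by
    intro n
    have h2 : Finsupp.equivFunOnFinite.symm n = ∑ i, Finsupp.single i (n i) := by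
      ext j
      simp [Finsupp.finsetSum_apply, Finsupp.single_apply]
    rw [h2]
    have h3 : ∀ s : Finset (Fin l), ∏ i ∈ s,
        MvPolynomial.monomial (Finsupp.single i (n i)) ((p i).coeff (n i)) =
        (MvPolynomial.monomial (∑ i ∈ s, Finsupp.single i (n i)) (∏ i ∈ s, (p i).coeff (n i)) :
          MvPolynomial (Fin l) R) := by
      intro s
      induction s using Finset.induction_on with
      | empty => simp
      | insert a s ha ih =>
        rw [Finset.prod_insert ha, Finset.sum_insert ha, Finset.prod_insert ha, ih,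
          MvPolynomial.monomial_mul]
    exact h3 Finset.univ
  simp only [h1, MvPolynomial.coeff_monomial]
  by_cases hm : ∀ i, m i < N
  · rw [Finset.sum_eq_single (fun i => m i)]
    · rw [if_pos]
      ext i
      simp
    · intro n _ hn
      rw [if_neg]
      intro h
      apply hn
      funext i
      rw [← h]
      simp
    · intro h
      exfalso
      apply h
      rw [Fintype.mem_piFinset]
      intro i
      rw [Finset.mem_range]
      exact hm i
  · have hm' : ∃ i, ¬ m i < N := by
      by_contra hcon
      apply hm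
      intro i
      by_contra hi
      exact hcon ⟨i, hi⟩
    obtain ⟨i, hi⟩ := hm'
    rw [Finset.sum_eq_zero, Finset.prod_eq_zero (Finset.mem_univ i)]
    · apply Polynomial.coeff_eq_zero_of_natDegree_lt
      have := hN i
      omega
    · intro n hn
      rw [if_neg]
      intro h
      rw [Fintype.mem_piFinset] at hn
      have h4 := hn i
      rw [Finset.mem_range] at h4
      apply hi
      rw [← h]
      simpa using h4

theorem coeff_det_eval₂ {l : ℕ} (p : Fin l → Polynomial R) (m : Fin l →₀ ℕ) :
    MvPolynomial.coeff m (Matrix.of fun i j : Fin l =>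
      (p j).eval₂ (MvPolynomial.C : R →+* MvPolynomial (Fin l) R) (MvPolynomial.X i)).det =
      (Matrix.of fun i j : Fin l => (p j).coeff (m i)).det := by
  rw [← Matrix.det_transpose, ← Matrix.det_transpose (Matrix.of fun i j : Fin l =>
    (p j).coeff (m i)), Matrix.det_apply, Matrix.det_apply, MvPolynomial.coeff_sum]
  apply Finset.sum_congr rfl
  intro σ _
  simp only [Matrix.transpose_apply, Matrix.of_apply]
  have h := coeff_prod_eval₂ (fun i => p (σ i)) m
  rcases Int.units_eq_one_or (Equiv.Perm.sign σ) with h1 | h1
  · rw [h1, one_smul, one_smul, h]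
  · rw [h1]
    have e1 : ∀ y : MvPolynomial (Fin l) R, (-1 : ℤˣ) • y = -y := by intro y; simp
    have e2 : ∀ y : R, (-1 : ℤˣ) • y = -y := by intro y; simp
    rw [e1, e2, MvPolynomial.coeff_neg, h]

end coef

section step

variable {ν ι R : Type*} [Fintype ν] [DecidableEq ν] [Fintype ι] [DecidableEq ι] [CommRing R]
  [Algebra ℂ R] (P : Matrix ν ν R) (J : Matrix ν ι R) (J' : Matrix ι ν R) (Y : Matrix ι ι R)

theorem evu_quad_gen (u : ι → ℂ) (M : Matrix ι ι R) :
    evu R u (quad M) = ∑ c, ∑ d, algebraMap ℂ R (star (u c)) * (M c d * algebraMap ℂ R (u d)) := by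
  unfold quad
  simp only [map_sum, map_mul, evu_inl, evu_inr, evu_C, Finset.mul_sum]

/-- The quadratic form of a polynomial matrix at the vector `u`. -/
noncomputable def wform (M : Matrix ι ι (Polynomial R)) (u : ι → ℂ) : Polynomial R :=
  ∑ c, ∑ d, Polynomial.C (algebraMap ℂ R (star (u c))) *
    (M c d * Polynomial.C (algebraMap ℂ R (u d)))

open scoped ComplexOrder in
theorem zonal_step (φ : R →ₗ[ℂ] ℂ) (x : R) {l : ℕ} (m : Fin l → ℕ)
    (h : ∀ u : ι → ℂ, 0 ≤ φ (x * (Matrix.of fun i j : Fin l =>
      (Polynomial.X ^ (j : ℕ) * wform (penWX P J J' Y) u).coeff (m i)).det)) :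
    0 ≤ φ (x * ((∏ i, ((m i + 1 : ℕ) : R)) * (Matrix.of fun i j : Fin l =>
      (Polynomial.X ^ (j : ℕ) * (penX P J J' Y).det).coeff (m i + 1)).det)) := by
  let S := MvPolynomial (Fin l) R
  let f : R →+* S := MvPolynomial.C
  let t : Fin l → S := fun i => MvPolynomial.X i
  let m' : Fin l →₀ ℕ := Finsupp.equivFunOnFinite.symm m
  let φ' : S →ₗ[ℂ] ℂ :=
    { toFun := fun F => φ (x * MvPolynomial.coeff m' F)
      map_add' := by
        intro F G
        rw [MvPolynomial.coeff_add, mul_add, map_add]
      map_smul' := by
        intro c F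
        rw [MvPolynomial.coeff_smul, mul_smul_comm, map_smul, RingHom.id_apply] }
  have hφ' : ∀ F, φ' F = φ (x * MvPolynomial.coeff m' F) := fun F => rfl
  let E : Polynomial S := (penX (P.map f) (J.map f) (J'.map f) (Y.map f)).det
  let W : S → Matrix ι ι S := fun t => penW (P.map f) (J.map f) (J'.map f) (Y.map f) t
  have hz := zonal_eval E W (fun t => penW_trace _ _ _ _ t) (fun s t => penW_mul _ _ _ _ s t) l t
  have hE : E = (penX P J J' Y).det.map f := by
    have h1 := (Polynomial.mapRingHom f).map_det (penX P J J' Y)
    rw [Polynomial.coe_mapRingHom] at h1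
    rw [h1]
    have h2 : J.map f * Y.map f * J'.map f = (J * Y * J').map f := by
      rw [Matrix.map_mul, Matrix.map_mul]
    simp only [E]
    congr 1
    unfold penX
    rw [h2]
    generalize J * Y * J' = N
    ext i j : 2
    simp
  have hA : MvPolynomial.coeff m' (Amat E t).det = (∏ i, ((m i + 1 : ℕ) : R)) *
      (Matrix.of fun i j : Fin l =>
        (Polynomial.X ^ (j : ℕ) * (penX P J J' Y).det).coeff (m i + 1)).det := by
    have h1 : Amat E t = Matrix.of fun i j : Fin l =>
        (Polynomial.derivative (Polynomial.X ^ (j : ℕ) * (penX P J J' Y).det)).eval₂ f (t i) := by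
      ext i j : 1
      unfold Amat
      rw [Matrix.of_apply, Matrix.of_apply, hE, ← Polynomial.eval_map, ← Polynomial.derivative_map,
        Polynomial.map_mul, Polynomial.map_pow, Polynomial.map_X]
    rw [h1, coeff_det_eval₂, ← Matrix.det_mul_column]
    congr 1
    ext i j
    rw [Matrix.of_apply, Matrix.of_apply, Polynomial.coeff_derivative, mul_comm]
    simp [m']
  have hpos := gL_nonneg φ' (MvPolynomial.C (vandermonde t).det * ∏ i, quad (W (t i))) (by
    intro u
    have h1 := h u
    have h0 : evu S u (MvPolynomial.C (vandermonde t).det * ∏ i, quad (W (t i))) =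
        (vandermonde t).det * ∏ i, evu S u (quad (W (t i))) := by
      rw [map_mul, evu_C, map_prod]
    rw [hφ', h0]
    have h2 : ∀ i, evu S u (quad (W (t i))) = (wform (penWX P J J' Y) u).eval₂ f (t i) := by
      intro i
      rw [evu_quad_gen]
      unfold wform
      rw [Polynomial.eval₂_finsetSum]
      apply Finset.sum_congr rfl
      intro c _
      rw [Polynomial.eval₂_finsetSum]
      apply Finset.sum_congr rfl
      intro d _
      rw [Polynomial.eval₂_mul, Polynomial.eval₂_mul, Polynomial.eval₂_C, Polynomial.eval₂_C]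
      have h3 := congrFun (congrFun (penWX_map P J J' Y f (t i)) c) d
      rw [Matrix.map_apply, Polynomial.coe_eval₂RingHom] at h3
      rw [h3]
      rfl
    simp only [h2]
    have h4 : (vandermonde t).det * ∏ i, (wform (penWX P J J' Y) u).eval₂ f (t i) =
        (Matrix.of fun i j : Fin l =>
          (Polynomial.X ^ (j : ℕ) * wform (penWX P J J' Y) u).eval₂ f (t i)).det := by
      rw [mul_comm, ← Matrix.det_mul_column]
      congr 1
      ext i j : 1
      rw [Matrix.of_apply, Matrix.of_apply, vandermonde_apply, Polynomial.eval₂_mul,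
        Polynomial.eval₂_pow, Polynomial.eval₂_X, mul_comm]
    rw [h4, coeff_det_eval₂]
    exact h1)
  rw [gL_C_mul, hz, hφ', hA] at hpos
  exact hpos

end step

end Pool.Agent.MP2e24f1
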