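import Pool.Agent.Lib.MP_2e24f1_ag.Results
import Pool.Agent.Lib.MP_2e24f1_ag_h13.FinalDec
import Pool.Agent.Lib.MP_2e24f1_ag_h13.Chain
import Pool.Agent.Lib.MP_2e24f1_ag_h13.DD

/-! The positivity theorem for decomposable curvature. -/

namespace Pool.Agent.MP2e24f1

open Matrix
open scoped ComplexOrder

theorem DD.topCoeff_nonneg {k : ℕ} (x : PolyForms k) (hx : DD k k x) : 0 ≤ topCoeff k x := by
  obtain ⟨γ, _, _, K, hc, hK, rfl⟩ := hx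
  exact hK.topCoeff_det_nonneg hc

theorem IsDec.schur_nonneg {k : ℕ} {ι : Type} [Fintype ι] [DecidableEq ι]
    {K : ι → ι → Matrix (Fin k) (Fin k) ℂ} (hK : IsDec K)
    (σ : Fin k → ℕ) (hσ : Antitone σ) (hsum : ∑ i, σ i = k) :
    0 ≤ topCoeff k (sdet (eZ (sysLin K)) σ) :=
  hK.schur_nonneg_of DD.topCoeff_nonneg σ hσ hsum

theorem decomposable_schur (d r k : ℕ) (U : Set (Fin d → ℂ))
    (h : (Fin d → ℂ) → Matrix (Fin r) (Fin r) ℂ) (_hU : IsOpen U) (hh : IsHermitianMetric U h)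
    (hD : ∀ x ∈ U, DecomposablySemipositiveAt h x)
    (T : Finset (Fin k → ℕ)) (a : (Fin k → ℕ) → ℝ)
    (hT : ∀ σ ∈ T, σ ∈ Lam k r ∧ 0 ≤ a σ) (x : Fin d → ℂ) (hx : x ∈ U) :
    IsPositiveForm k (∑ σ ∈ T, (a σ : ℂ) • schurForm (curvature h x) σ) := by
  apply positive_sum T a _ (fun σ hσ => (hT σ hσ).2)
  intro σ hσ L _
  obtain ⟨⟨_, hanti, hsum⟩, _⟩ := hT σ hσ
  obtain ⟨P, Q, hP, hQ, hdec⟩ := hD x hx
  exact schur_positive_dec (curvature h x) P Q (h x) (hh.pos x hx) hP hQ hdec σ hsum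
    (fun K hK => hK.schur_nonneg σ hanti hsum) L

end Pool.Agent.MP2e24f1
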