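import Pool.Agent.Lib.MP_2e24f1_ag.Cover
import Pool.Agent.Lib.MP_2e24f1_ag.Gauss2

/-! The Wick formula, sums with signs, and the swap lemma. -/

namespace Pool.Agent.MP2e24f1

open Matrix MvPolynomial

theorem deriv_prod {A ι : Type*} [CommRing A] [Algebra ℂ A] [DecidableEq ι]
    (D : Derivation ℂ A A) (s : Finset ι) (f : ι → A) :
    D (∏ i ∈ s, f i) = ∑ i ∈ s, D (f i) * ∏ j ∈ s.erase i, f j := by
  induction s using Finset.induction_on with
  | empty => simp
  | insert a s ha ih =>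
    rw [Finset.prod_insert ha, Derivation.leibniz, ih, Finset.sum_insert ha, Finset.erase_insert ha]
    simp only [smul_eq_mul]
    rw [add_comm, mul_comm (∏ i ∈ s, f i)]
    congr 1
    rw [Finset.mul_sum]
    apply Finset.sum_congr rfl
    intro i hi
    have hne : a ≠ i := by
      rintro rfl
      exact ha hi
    rw [Finset.erase_insert_of_ne hne, Finset.prod_insert (by simp [ha])]
    ring

section wick

variable {U : Type*} [Fintype U] [DecidableEq U]

omit [DecidableEq U] in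
theorem pderiv_linl (c : U → ℂ) (u : U) :
    pderiv (Sum.inr u) (∑ v, C (c v) * X (Sum.inl v) : MvPolynomial (U ⊕ U) ℂ) = 0 := by
  rw [map_sum]
  apply Finset.sum_eq_zero
  intro v _
  rw [pderiv_C_mul, pderiv_X_of_ne (by simp), mul_zero]

theorem pderiv_linr (c : U → ℂ) (u : U) :
    pderiv (Sum.inr u) (∑ v, C (c v) * X (Sum.inr v) : MvPolynomial (U ⊕ U) ℂ) = C (c u) := by
  rw [map_sum, Finset.sum_eq_single u]
  · rw [pderiv_C_mul, pderiv_X_self, mul_one]
  · intro v _ hv
    rw [pderiv_C_mul, pderiv_X_of_ne (by simpa using hv), mul_zero]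
  · simp

theorem prod_swap {n : ℕ} {A : Type*} [CommRing A] (f : Fin (n + 1) → A) (j : Fin (n + 1)) :
    ∏ i ∈ Finset.univ.erase j, f i = ∏ i : Fin n, f (Equiv.swap 0 j i.succ) := by
  have h : (Finset.univ.erase j : Finset (Fin (n + 1))) =
      (Finset.univ : Finset (Fin n)).map
        ((Fin.succEmb n).trans (Equiv.swap 0 j).toEmbedding) := by
    ext x
    simp only [Finset.mem_erase, Finset.mem_univ, and_true, Finset.mem_map, true_and,
      Function.Embedding.trans_apply, Equiv.coe_toEmbedding, Fin.coe_succEmb]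
    constructor
    · intro hx
      have h1 : Equiv.swap 0 j x ≠ 0 := by
        intro h2
        have h3 : x = Equiv.swap 0 j 0 := by
          have h4 := congrArg (Equiv.swap 0 j) h2
          rwa [Equiv.swap_apply_self] at h4
        rw [Equiv.swap_apply_left] at h3
        exact hx h3
      obtain ⟨y, hy⟩ := Fin.exists_succ_eq.mpr h1
      exact ⟨y, by rw [hy, Equiv.swap_apply_self]⟩
    · rintro ⟨y, rfl⟩ h2
      have h3 : (y.succ : Fin (n + 1)) = Equiv.swap 0 j j := by
        have h4 := congrArg (Equiv.swap 0 j) h2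
        rwa [Equiv.swap_apply_self] at h4
      rw [Equiv.swap_apply_right] at h3
      exact Fin.succ_ne_zero y h3
  rw [h, Finset.prod_map]
  rfl

theorem wick (n : ℕ) (α β : Fin n → U → ℂ) :
    gL U ℂ ((∏ i, ∑ u, C (α i u) * X (Sum.inl u)) * ∏ i, ∑ u, C (β i u) * X (Sum.inr u)) =
      ∑ π : Equiv.Perm (Fin n), ∏ i, ∑ u, α i u * β (π i) u := by
  induction n with
  | zero =>
    simp only [Finset.univ_eq_empty, Finset.prod_empty, mul_one]
    have := gL_C (ι := U) (R := ℂ) 1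
    rw [C_1] at this
    rw [this]
    simp
  | succ n ih =>
    rw [Fin.prod_univ_succ (fun i => ∑ u, C (α i u) * X (Sum.inl u))]
    rw [mul_assoc, Finset.sum_mul, map_sum]
    have h1 : ∀ u : U, gL U ℂ (C (α 0 u) * X (Sum.inl u) *
        ((∏ i : Fin n, ∑ v, C (α i.succ v) * X (Sum.inl v)) *
          ∏ i, ∑ v, C (β i v) * X (Sum.inr v))) =
        ∑ j, α 0 u * β j u * ∑ π : Equiv.Perm (Fin n), ∏ i : Fin n,
          ∑ v, α i.succ v * β (Equiv.swap 0 j (π i).succ) v := by
      intro u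
      rw [mul_assoc, gL_C_mul, gL_inl_mul, Derivation.leibniz, deriv_prod, deriv_prod]
      simp only [pderiv_linl, pderiv_linr, zero_mul, Finset.sum_const_zero, smul_eq_mul]
      rw [mul_zero, add_zero]
      rw [Finset.mul_sum, map_sum, Finset.mul_sum]
      apply Finset.sum_congr rfl
      intro j _
      rw [mul_left_comm, gL_C_mul, prod_swap, mul_assoc]
      congr 2
      exact ih (fun i => α i.succ) (fun i => β (Equiv.swap 0 j i.succ))
    simp only [h1]
    rw [Finset.sum_comm, ← Equiv.sum_comp Equiv.Perm.decomposeFin.symm, Fintype.sum_prod_type]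
    apply Finset.sum_congr rfl
    intro j _
    rw [← Finset.sum_mul, Finset.mul_sum]
    apply Finset.sum_congr rfl
    intro π _
    rw [Fin.prod_univ_succ]
    simp only [Equiv.Perm.decomposeFin_symm_apply_zero, Equiv.Perm.decomposeFin_symm_apply_succ]

end wick

/-- The sign as a complex number. -/
noncomputable def sg {κ : Type*} [Fintype κ] [DecidableEq κ] (σ : Equiv.Perm κ) : ℂ :=
  ((Equiv.Perm.sign σ : ℤ) : ℂ)

theorem sg_mul {κ : Type*} [Fintype κ] [DecidableEq κ] (σ τ : Equiv.Perm κ) :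
    sg (σ * τ) = sg σ * sg τ := by
  unfold sg
  rw [Equiv.Perm.sign_mul]
  push_cast
  rfl

theorem sg_inv {κ : Type*} [Fintype κ] [DecidableEq κ] (σ : Equiv.Perm κ) :
    sg σ⁻¹ = sg σ := by
  unfold sg
  rw [Equiv.Perm.sign_inv]

theorem sg_sq {κ : Type*} [Fintype κ] [DecidableEq κ] (σ : Equiv.Perm κ) :
    sg σ * sg σ = 1 := by
  unfold sg
  rcases Int.units_eq_one_or (Equiv.Perm.sign σ) with h | h <;> rw [h] <;> simp

theorem sum_eps {k : ℕ} (F : (Fin k → Fin k) → ℂ) :
    ∑ a : Fin k → Fin k, F a * eps a = ∑ σ : Equiv.Perm (Fin k), F σ * sg σ := by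
  symm
  apply Finset.sum_of_injOn (fun σ : Equiv.Perm (Fin k) => (σ : Fin k → Fin k))
  · intro σ _ τ _ h
    exact DFunLike.coe_injective h
  · intro σ _
    simp
  · intro a _ ha
    rw [eps_not_inj, mul_zero]
    intro hinj
    apply ha
    exact ⟨Equiv.ofBijective a (Finite.injective_iff_bijective.mp hinj), by simp, rfl⟩
  · intro σ _
    rw [eps_perm]
    rfl

theorem sum_eps2 {k : ℕ} (F : (Fin k → Fin k) → (Fin k → Fin k) → ℂ) :
    ∑ a : Fin k → Fin k, ∑ b : Fin k → Fin k, F a b * (eps a * eps b) =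
      ∑ σ : Equiv.Perm (Fin k), ∑ τ : Equiv.Perm (Fin k), F σ τ * (sg σ * sg τ) := by
  have h : ∀ a : Fin k → Fin k, ∑ b : Fin k → Fin k, F a b * (eps a * eps b) =
      (∑ τ : Equiv.Perm (Fin k), F a τ * sg τ) * eps a := by
    intro a
    rw [← sum_eps (F a), Finset.sum_mul]
    apply Finset.sum_congr rfl
    intro b _
    ring
  simp only [h]
  rw [sum_eps (fun a => ∑ τ : Equiv.Perm (Fin k), F a τ * sg τ)]
  apply Finset.sum_congr rfl
  intro σ _
  rw [Finset.sum_mul]
  apply Finset.sum_congr rfl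
  intro τ _
  ring

theorem mix_eq {k : ℕ} (G : Fin k → Fin k → Fin k → Fin k → ℂ) :
    ∑ π : Equiv.Perm (Fin k), sg π * ∑ a : Fin k → Fin k, ∑ b : Fin k → Fin k,
        (∏ i, G (π i) i (a i) (b i)) * (eps a * eps b) =
      ∑ π : Equiv.Perm (Fin k), sg π * ∑ a : Fin k → Fin k, ∑ b : Fin k → Fin k,
        (∏ i, G (a i) (b i) (π i) i) * (eps a * eps b) := by
  have h1 : ∀ π : Equiv.Perm (Fin k), ∑ a : Fin k → Fin k, ∑ b : Fin k → Fin k,
      (∏ i, G (π i) i (a i) (b i)) * (eps a * eps b) =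
      ∑ σ : Equiv.Perm (Fin k), ∑ τ : Equiv.Perm (Fin k),
        (∏ i, G (π i) i (σ i) (τ i)) * (sg σ * sg τ) := fun π =>
    sum_eps2 (fun a b => ∏ i, G (π i) i (a i) (b i))
  have h2 : ∀ π : Equiv.Perm (Fin k), ∑ a : Fin k → Fin k, ∑ b : Fin k → Fin k,
      (∏ i, G (a i) (b i) (π i) i) * (eps a * eps b) =
      ∑ σ : Equiv.Perm (Fin k), ∑ τ : Equiv.Perm (Fin k),
        (∏ i, G (σ i) (τ i) (π i) i) * (sg σ * sg τ) := fun π =>
    sum_eps2 (fun a b => ∏ i, G (a i) (b i) (π i) i)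
  simp only [h1, h2, Finset.mul_sum]
  have e1 : ∀ f : Equiv.Perm (Fin k) → Equiv.Perm (Fin k) → Equiv.Perm (Fin k) → ℂ,
      ∑ π, ∑ σ, ∑ τ, f π σ τ = ∑ τ, ∑ π, ∑ σ, f π σ τ := by
    intro f
    rw [Finset.sum_comm]
    have : ∀ σ, ∑ π, ∑ τ, f π σ τ = ∑ τ, ∑ π, f π σ τ := fun σ => Finset.sum_comm
    simp only [this]
    rw [Finset.sum_comm]
    apply Finset.sum_congr rfl
    intro τ _
    rw [Finset.sum_comm]
  rw [e1 (fun π σ τ => sg π * ((∏ i, G (π i) i (σ i) (τ i)) * (sg σ * sg τ))),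
    e1 (fun π σ τ => sg π * ((∏ i, G (σ i) (τ i) (π i) i) * (sg σ * sg τ)))]
  rw [← Equiv.sum_comp (Equiv.inv (Equiv.Perm (Fin k))) (fun τ => ∑ π : Equiv.Perm (Fin k),
    ∑ σ : Equiv.Perm (Fin k), sg π * ((∏ i, G (π i) i (σ i) (τ i)) * (sg σ * sg τ)))]
  have e2 : ∀ q : Equiv.Perm (Fin k), ∑ π : Equiv.Perm (Fin k), ∑ σ : Equiv.Perm (Fin k),
      sg π * ((∏ i, G (π i) i (σ i) (q⁻¹ i)) * (sg σ * sg q⁻¹)) =
      ∑ p : Equiv.Perm (Fin k), ∑ s : Equiv.Perm (Fin k),
        (∏ i, G (p i) (q i) (s i) i) * (sg p * sg q * sg s) := by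
    intro q
    rw [← Equiv.sum_comp (Equiv.mulRight q⁻¹)]
    apply Finset.sum_congr rfl
    intro p _
    rw [← Equiv.sum_comp (Equiv.mulRight q⁻¹)]
    apply Finset.sum_congr rfl
    intro s _
    simp only [Equiv.coe_mulRight]
    rw [← Equiv.prod_comp q]
    have hq : ∀ i, q⁻¹ (q i) = i := fun i => by
      rw [← Equiv.Perm.mul_apply, inv_mul_cancel, Equiv.Perm.one_apply]
    simp only [Equiv.Perm.mul_apply, hq]
    rw [sg_mul, sg_mul, sg_inv]
    have := sg_sq q
    linear_combination (sg p * sg s * sg q * (∏ i, G (p i) (q i) (s i) i)) * this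
  simp only [Equiv.inv_apply, e2]
  apply Finset.sum_congr rfl
  intro q _
  rw [Finset.sum_comm]
  apply Finset.sum_congr rfl
  intro s _
  apply Finset.sum_congr rfl
  intro p _
  ring

section swap

variable {k : ℕ}

/-- The signed sum of a family of functions of pairs of rows. -/
noncomputable def TT (φ : Fin k → (Fin k ⊕ Fin k) → (Fin k ⊕ Fin k) → ℂ) : ℂ :=
  ∑ σ : Equiv.Perm (Fin k ⊕ Fin k), sg σ * ∏ l, φ l (σ (Sum.inl l)) (σ (Sum.inr l))

theorem TT_erase (φ : Fin k → (Fin k ⊕ Fin k) → (Fin k ⊕ Fin k) → ℂ) (l : Fin k) :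
    TT φ = ∑ σ : Equiv.Perm (Fin k ⊕ Fin k), sg σ * (φ l (σ (Sum.inl l)) (σ (Sum.inr l)) *
      ∏ j ∈ Finset.univ.erase l, φ j (σ (Sum.inl j)) (σ (Sum.inr j))) := by
  unfold TT
  apply Finset.sum_congr rfl
  intro σ _
  rw [Finset.mul_prod_erase Finset.univ (fun j => φ j (σ (Sum.inl j)) (σ (Sum.inr j)))
    (Finset.mem_univ l)]

theorem TT_swap (φ : Fin k → (Fin k ⊕ Fin k) → (Fin k ⊕ Fin k) → ℂ) (l : Fin k)
    (ψ : (Fin k ⊕ Fin k) → (Fin k ⊕ Fin k) → ℂ) :
    TT (Function.update φ l (fun x y => ψ y x)) = - TT (Function.update φ l ψ) := by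
  rw [TT_erase _ l, TT_erase _ l, ← Finset.sum_neg_distrib,
    ← Equiv.sum_comp (Equiv.mulRight (Equiv.swap (Sum.inl l) (Sum.inr l)))]
  apply Finset.sum_congr rfl
  intro σ _
  simp only [Equiv.coe_mulRight, Equiv.Perm.mul_apply, Equiv.swap_apply_left,
    Equiv.swap_apply_right, Function.update_self]
  have h1 : sg (σ * Equiv.swap (Sum.inl l) (Sum.inr l)) = - sg σ := by
    rw [sg_mul]
    have : sg (Equiv.swap (Sum.inl l) (Sum.inr l) : Equiv.Perm (Fin k ⊕ Fin k)) = -1 := by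
      unfold sg
      rw [Equiv.Perm.sign_swap (by simp)]
      simp
    rw [this]
    ring
  have h2 : ∏ j ∈ Finset.univ.erase l, Function.update φ l (fun x y => ψ y x) j
      (σ (Equiv.swap (Sum.inl l) (Sum.inr l) (Sum.inl j)))
      (σ (Equiv.swap (Sum.inl l) (Sum.inr l) (Sum.inr j))) =
      ∏ j ∈ Finset.univ.erase l, Function.update φ l ψ j (σ (Sum.inl j)) (σ (Sum.inr j)) := by
    apply Finset.prod_congr rfl
    intro j hj
    have hj1 := Finset.ne_of_mem_erase hj
    rw [Function.update_of_ne hj1, Function.update_of_ne hj1,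
      Equiv.swap_apply_of_ne_of_ne (by simpa using hj1) (by simp),
      Equiv.swap_apply_of_ne_of_ne (by simp) (by simpa using hj1)]
  rw [h1, h2]
  ring

theorem TT_add (φ : Fin k → (Fin k ⊕ Fin k) → (Fin k ⊕ Fin k) → ℂ) (l : Fin k)
    (ψ ψ' : (Fin k ⊕ Fin k) → (Fin k ⊕ Fin k) → ℂ) :
    TT (Function.update φ l (fun x y => ψ x y + ψ' x y)) =
      TT (Function.update φ l ψ) + TT (Function.update φ l ψ') := by
  rw [TT_erase _ l, TT_erase _ l, TT_erase _ l, ← Finset.sum_add_distrib]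
  apply Finset.sum_congr rfl
  intro σ _
  simp only [Function.update_self]
  have h2 : ∀ χ : (Fin k ⊕ Fin k) → (Fin k ⊕ Fin k) → ℂ,
      ∏ j ∈ Finset.univ.erase l, Function.update φ l χ j (σ (Sum.inl j)) (σ (Sum.inr j)) =
      ∏ j ∈ Finset.univ.erase l, φ j (σ (Sum.inl j)) (σ (Sum.inr j)) := by
    intro χ
    apply Finset.prod_congr rfl
    intro j hj
    rw [Function.update_of_ne (Finset.ne_of_mem_erase hj)]
  rw [h2, h2, h2]
  ring

/-- The antisymmetrised function, supported on pairs (left, right). -/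
def asy (ψ : (Fin k ⊕ Fin k) → (Fin k ⊕ Fin k) → ℂ) : (Fin k ⊕ Fin k) → (Fin k ⊕ Fin k) → ℂ
  | Sum.inl b, Sum.inr a => ψ (Sum.inl b) (Sum.inr a) - ψ (Sum.inr a) (Sum.inl b)
  | _, _ => 0

/-- The part supported on pairs (left, right). -/
def prt (ψ : (Fin k ⊕ Fin k) → (Fin k ⊕ Fin k) → ℂ) : (Fin k ⊕ Fin k) → (Fin k ⊕ Fin k) → ℂ
  | Sum.inl b, Sum.inr a => ψ (Sum.inl b) (Sum.inr a)
  | _, _ => 0

theorem TT_asy (φ : Fin k → (Fin k ⊕ Fin k) → (Fin k ⊕ Fin k) → ℂ) (l : Fin k)
    (ψ : (Fin k ⊕ Fin k) → (Fin k ⊕ Fin k) → ℂ)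
    (h1 : ∀ i j, ψ (Sum.inl i) (Sum.inl j) = 0) (h2 : ∀ i j, ψ (Sum.inr i) (Sum.inr j) = 0) :
    TT (Function.update φ l ψ) = TT (Function.update φ l (asy ψ)) := by
  have e1 : ψ = fun x y => prt ψ x y + prt (fun x y => ψ y x) y x := by
    funext x y
    rcases x with x | x <;> rcases y with y | y <;> simp [prt, h1, h2]
  have e2 : asy ψ = fun x y => prt ψ x y + (fun x y => - prt (fun x y => ψ y x) x y) x y := by
    funext x y
    rcases x with x | x <;> rcases y with y | y <;> simp [prt, asy]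
    ring
  have e3 : TT (Function.update φ l (fun x y => - prt (fun x y => ψ y x) x y)) =
      - TT (Function.update φ l (prt (fun x y => ψ y x))) := by
    have h := TT_add φ l (fun x y => - prt (fun x y => ψ y x) x y) (prt (fun x y => ψ y x))
    have h3 : TT (Function.update φ l (fun x y => - prt (fun x y => ψ y x) x y +
        prt (fun x y => ψ y x) x y)) = 0 := by
      rw [TT_erase _ l]
      apply Finset.sum_eq_zero
      intro σ _
      simp
    rw [h3] at h
    exact (neg_eq_of_add_eq_zero_left h.symm).symm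
  conv_lhs => rw [e1]
  conv_rhs => rw [e2]
  rw [TT_add, TT_add, e3]
  congr 1
  exact TT_swap φ l (prt (fun x y => ψ y x))

theorem TT_asy_all (φ : Fin k → (Fin k ⊕ Fin k) → (Fin k ⊕ Fin k) → ℂ)
    (h1 : ∀ l i j, φ l (Sum.inl i) (Sum.inl j) = 0)
    (h2 : ∀ l i j, φ l (Sum.inr i) (Sum.inr j) = 0) (s : Finset (Fin k)) :
    TT φ = TT (fun l => if l ∈ s then asy (φ l) else φ l) := by
  induction s using Finset.induction_on with
  | empty => simp
  | insert a s ha ih =>
    rw [ih]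
    have e1 : (fun l => if l ∈ s then asy (φ l) else φ l) =
        Function.update (fun l => if l ∈ s then asy (φ l) else φ l) a (φ a) := by
      funext l
      by_cases hl : l = a
      · subst hl
        rw [Function.update_self, if_neg ha]
      · rw [Function.update_of_ne hl]
    have e2 : (fun l => if l ∈ insert a s then asy (φ l) else φ l) =
        Function.update (fun l => if l ∈ s then asy (φ l) else φ l) a (asy (φ a)) := by
      funext l
      by_cases hl : l = a
      · subst hl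
        rw [Function.update_self, if_pos (Finset.mem_insert_self _ _)]
      · rw [Function.update_of_ne hl]
        simp [hl]
    rw [e1, e2]
    exact TT_asy _ a _ (h1 a) (h2 a)

theorem TT_delta (a b : Fin k → Fin k) :
    TT (fun l x y => (if x = Sum.inl (b l) then 1 else 0) * (if y = Sum.inr (a l) then 1 else 0)) =
      eps a * eps b := by
  have h : (fromBlocks ((1 : Matrix (Fin k) (Fin k) ℂ).submatrix b id)ᵀ 0 0
      ((1 : Matrix (Fin k) (Fin k) ℂ).submatrix a id)ᵀ).det = eps a * eps b := by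
    rw [det_fromBlocks_zero₂₁, det_transpose, det_transpose]
    unfold eps
    ring
  have k1 : ∀ (x : Fin k ⊕ Fin k) (l : Fin k),
      fromBlocks ((1 : Matrix (Fin k) (Fin k) ℂ).submatrix b id)ᵀ 0 0
        ((1 : Matrix (Fin k) (Fin k) ℂ).submatrix a id)ᵀ x (Sum.inl l) =
      if x = Sum.inl (b l) then 1 else 0 := by
    intro x l
    rcases x with x | x
    · simp [Matrix.one_apply]
    · simp
  have k2 : ∀ (x : Fin k ⊕ Fin k) (l : Fin k),
      fromBlocks ((1 : Matrix (Fin k) (Fin k) ℂ).submatrix b id)ᵀ 0 0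
        ((1 : Matrix (Fin k) (Fin k) ℂ).submatrix a id)ᵀ x (Sum.inr l) =
      if x = Sum.inr (a l) then 1 else 0 := by
    intro x l
    rcases x with x | x
    · simp
    · simp [Matrix.one_apply]
  rw [← h, Matrix.det_apply']
  unfold TT
  apply Finset.sum_congr rfl
  intro σ _
  unfold sg
  congr 1
  rw [Fintype.prod_sum_type, ← Finset.prod_mul_distrib]
  apply Finset.prod_congr rfl
  intro l _
  rw [k1, k2]

theorem TT_eq (φ : Fin k → (Fin k ⊕ Fin k) → (Fin k ⊕ Fin k) → ℂ)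
    (h1 : ∀ l i j, φ l (Sum.inl i) (Sum.inl j) = 0)
    (h2 : ∀ l i j, φ l (Sum.inr i) (Sum.inr j) = 0) :
    TT φ = ∑ a : Fin k → Fin k, ∑ b : Fin k → Fin k,
      (∏ l, (φ l (Sum.inl (b l)) (Sum.inr (a l)) - φ l (Sum.inr (a l)) (Sum.inl (b l)))) *
        (eps a * eps b) := by
  rw [TT_asy_all φ h1 h2 Finset.univ]
  have h3 : ∀ l x y, asy (φ l) x y = ∑ ab : Fin k × Fin k,
      (φ l (Sum.inl ab.2) (Sum.inr ab.1) - φ l (Sum.inr ab.1) (Sum.inl ab.2)) *
      ((if x = Sum.inl ab.2 then 1 else 0) * (if y = Sum.inr ab.1 then 1 else 0)) := by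
    intro l x y
    rcases x with x | x <;> rcases y with y | y
    · simp [asy]
    · rw [Finset.sum_eq_single (y, x)]
      · simp [asy]
      · rintro ⟨a, b⟩ _ hne
        by_cases hx : x = b
        · by_cases hy : y = a
          · exact absurd (by rw [hx, hy]) hne
          · simp [hy]
        · simp [hx]
      · simp
    · simp [asy]
    · simp [asy]
  have h4 : TT (fun l => if l ∈ Finset.univ then asy (φ l) else φ l) =
      ∑ σ : Equiv.Perm (Fin k ⊕ Fin k), sg σ * ∑ f : Fin k → Fin k × Fin k,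
        ∏ l, ((φ l (Sum.inl (f l).2) (Sum.inr (f l).1) -
          φ l (Sum.inr (f l).1) (Sum.inl (f l).2)) *
        ((if σ (Sum.inl l) = Sum.inl (f l).2 then 1 else 0) *
          (if σ (Sum.inr l) = Sum.inr (f l).1 then 1 else 0))) := by
    unfold TT
    apply Finset.sum_congr rfl
    intro σ _
    congr 1
    simp only [Finset.mem_univ, if_true, h3]
    rw [Fintype.prod_sum (fun l (ab : Fin k × Fin k) =>
      (φ l (Sum.inl ab.2) (Sum.inr ab.1) - φ l (Sum.inr ab.1) (Sum.inl ab.2)) *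
      ((if σ (Sum.inl l) = Sum.inl ab.2 then 1 else 0) *
        (if σ (Sum.inr l) = Sum.inr ab.1 then 1 else 0)))]
  rw [h4]
  simp only [Finset.mul_sum]
  rw [Finset.sum_comm]
  rw [← Equiv.sum_comp (Equiv.arrowProdEquivProdArrow (Fin k) (fun _ => Fin k) (fun _ => Fin k)).symm]
  rw [Fintype.sum_prod_type]
  apply Finset.sum_congr rfl
  intro a _
  apply Finset.sum_congr rfl
  intro b _
  simp only [Equiv.arrowProdEquivProdArrow, Equiv.coe_fn_symm_mk]
  rw [← TT_delta a b]
  unfold TT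
  rw [Finset.mul_sum]
  apply Finset.sum_congr rfl
  intro σ _
  rw [Finset.prod_mul_distrib, mul_left_comm]
  rfl

end swap

end Pool.Agent.MP2e24f1
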