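import Pool.Agent.Lib.MP_2e24f1_ag.Sym

/-! The one-vector integration formula for determinants of elementary symmetric functions. -/

namespace Pool.Agent.MP2e24f1

open Matrix

variable {ι : Type*} [Fintype ι] [DecidableEq ι] {R : Type*} [CommRing R]

theorem gL_quad_mul (Z : Matrix ι ι R) (F : MvPolynomial (ι ⊕ ι) R) :
    gL ι R (quad Z * F) = Z.trace * gL ι R F +
      gL ι R (∑ i, (∑ j, MvPolynomial.C (Z i j) * MvPolynomial.X (Sum.inl j)) *
        MvPolynomial.pderiv (Sum.inl i) F) := by
  have h1 : quad Z * F = ∑ i, MvPolynomial.X (Sum.inr i) *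
      ((∑ j, MvPolynomial.C (Z i j) * MvPolynomial.X (Sum.inl j)) * F) := by
    conv_lhs => rw [quad, Finset.sum_mul]
    apply Finset.sum_congr rfl
    intro i _
    rw [mul_assoc]
  rw [h1, map_sum]
  have h2 : ∀ i, gL ι R (MvPolynomial.X (Sum.inr i) *
      ((∑ j, MvPolynomial.C (Z i j) * MvPolynomial.X (Sum.inl j)) * F)) =
      Z i i * gL ι R F + gL ι R
        ((∑ j, MvPolynomial.C (Z i j) * MvPolynomial.X (Sum.inl j)) *
          MvPolynomial.pderiv (Sum.inl i) F) := by
    intro i
    rw [gL_inr_mul, MvPolynomial.pderiv_mul, map_add]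
    congr 1
    rw [← gL_C_mul]
    congr 2
    rw [map_sum, Finset.sum_eq_single i]
    · rw [MvPolynomial.pderiv_C_mul, MvPolynomial.pderiv_X_self, mul_one]
    · intro j _ hj
      rw [MvPolynomial.pderiv_C_mul, MvPolynomial.pderiv_X_of_ne (by simpa using hj), mul_zero]
    · simp
  simp only [h2]
  rw [Finset.sum_add_distrib, ← Finset.sum_mul, ← map_sum]
  rfl

theorem quad_mul_aux (Z Y : Matrix ι ι R) :
    ∑ i, (∑ j, MvPolynomial.C (Z i j) * MvPolynomial.X (Sum.inl j)) *
        MvPolynomial.pderiv (Sum.inl i) (quad Y) = quad (Y * Z) := by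
  unfold quad
  have h3 : ∀ i, (∑ j, MvPolynomial.C (Z i j) * MvPolynomial.X (Sum.inl j)) *
          MvPolynomial.pderiv (Sum.inl i) (quad Y) =
      ∑ l, MvPolynomial.X (Sum.inr l) * (∑ j, MvPolynomial.C (Y l i * Z i j) *
        (MvPolynomial.X (Sum.inl j) : MvPolynomial (ι ⊕ ι) R)) := by
    intro i
    rw [pderiv_quad, Finset.mul_sum]
    apply Finset.sum_congr rfl
    intro l _
    rw [Finset.mul_sum, Finset.sum_mul]
    apply Finset.sum_congr rfl
    intro j _
    rw [map_mul]
    ring
  unfold quad at h3
  simp only [h3]
  rw [Finset.sum_comm]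
  apply Finset.sum_congr rfl
  intro l _
  rw [← Finset.mul_sum]
  congr 1
  rw [Finset.sum_comm]
  apply Finset.sum_congr rfl
  intro j _
  rw [← Finset.sum_mul, ← map_sum]
  rfl

theorem pderiv_prod_succAbove {τ : Type*} (x : τ) : ∀ (l : ℕ)
    (f : Fin (l + 1) → MvPolynomial τ R),
    MvPolynomial.pderiv x (∏ i, f i) =
      ∑ j, MvPolynomial.pderiv x (f j) * ∏ i : Fin l, f (j.succAbove i) := by
  intro l
  induction l with
  | zero =>
    intro f
    simp
  | succ l ih =>
    intro f
    rw [Fin.prod_univ_succ, MvPolynomial.pderiv_mul, ih, Fin.sum_univ_succ (n := l + 1)]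
    congr 1
    rw [Finset.mul_sum]
    apply Finset.sum_congr rfl
    intro j _
    rw [Fin.prod_univ_succ (n := l), Fin.succ_succAbove_zero]
    simp only [Fin.succ_succAbove_succ]
    ring

theorem gL_quad_mul_prod {l : ℕ} (Z : Matrix ι ι R) (W : Fin (l + 1) → Matrix ι ι R) :
    gL ι R (quad Z * ∏ i, quad (W i)) = Z.trace * gL ι R (∏ i, quad (W i)) +
      ∑ j, gL ι R (quad (W j * Z) * ∏ i : Fin l, quad (W (j.succAbove i))) := by
  rw [gL_quad_mul, ← map_sum]
  congr 2
  simp only [pderiv_prod_succAbove, Finset.mul_sum]
  rw [Finset.sum_comm]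
  apply Finset.sum_congr rfl
  intro j _
  rw [← quad_mul_aux, Finset.sum_mul]
  apply Finset.sum_congr rfl
  intro i _
  ring

/-- Removing an entry of a Vandermonde determinant. -/
theorem vander_remove {l : ℕ} (t : Fin (l + 1) → R) (p : Fin (l + 1)) :
    (vandermonde t).det = (-1) ^ (p : ℕ) * (∏ i, (t (p.succAbove i) - t p)) *
      (vandermonde (fun i => t (p.succAbove i))).det := by
  have h0 : ∀ u : Fin (l + 1) → R, (vandermonde u).det =
      (∏ i : Fin l, (u i.succ - u 0)) * (vandermonde (fun i => u i.succ)).det := by
    intro u
    rw [det_vandermonde, det_vandermonde, Fin.prod_univ_succ, Fin.prod_Ioi_zero]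
    congr 1
    apply Finset.prod_congr rfl
    intro i _
    rw [Fin.prod_Ioi_succ]
  have h1 := Matrix.det_permute p.cycleRange.symm (vandermonde t)
  have h2 : (vandermonde t).submatrix p.cycleRange.symm id =
      vandermonde (fun i => t (p.cycleRange.symm i)) := by
    ext i j
    simp [vandermonde_apply]
  rw [h2, h0] at h1
  simp only [Fin.cycleRange_symm_succ, Fin.cycleRange_symm_zero] at h1
  rw [mul_assoc, h1, Equiv.Perm.sign_symm, Fin.sign_cycleRange, ← mul_assoc]
  have h3 : ((-1 : R) ^ (p : ℕ)) * (((-1 : ℤˣ) ^ (p : ℕ) : ℤˣ) : ℤ) = 1 := by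
    push_cast
    rw [← mul_pow]
    simp
  rw [h3, one_mul]

/-- The matrix of values of the derivatives of `X ^ j * E`. -/
noncomputable def Amat (E : Polynomial R) {l : ℕ} (t : Fin l → R) : Matrix (Fin l) (Fin l) R :=
  Matrix.of fun i j => (Polynomial.derivative (Polynomial.X ^ (j : ℕ) * E)).eval (t i)

theorem Amat_expand (E : Polynomial R) {l : ℕ} (t : Fin (l + 1) → R) (q : Polynomial R)
    (hq : q.Monic) (hd : q.natDegree = l) :
    (Amat E t).det = ∑ p : Fin (l + 1), (-1) ^ ((p : ℕ) + l) *
      (Polynomial.derivative (q * E)).eval (t p) * (Amat E (fun i => t (p.succAbove i))).det := by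
  let F : Polynomial R →ₗ[R] R :=
    { toFun := fun f => ((Amat E t).updateCol (Fin.last l)
        (fun i => (Polynomial.derivative (f * E)).eval (t i))).det
      map_add' := by
        intro f g
        rw [← Matrix.det_updateCol_add]
        congr 2
        funext i
        simp [add_mul]
      map_smul' := by
        intro c f
        rw [RingHom.id_apply, smul_eq_mul, ← Matrix.det_updateCol_smul]
        congr 2
        funext i
        simp
        ring }
  have hF : ∀ f, F f = ((Amat E t).updateCol (Fin.last l)
        (fun i => (Polynomial.derivative (f * E)).eval (t i))).det := fun f => rfl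
  have hX : ∀ j : ℕ, j < l → F (Polynomial.X ^ j) = 0 := by
    intro j hj
    rw [hF]
    apply Matrix.det_zero_of_column_eq (i := (⟨j, by omega⟩ : Fin (l + 1))) (j := Fin.last l)
    · intro h
      have := congrArg Fin.val h
      simp at this
      omega
    · intro i
      rw [Matrix.updateCol_self, Matrix.updateCol_ne]
      · rfl
      · intro h
        have := congrArg Fin.val h
        simp at this
        omega
  have hl : F (Polynomial.X ^ l) = (Amat E t).det := by
    rw [hF]
    congr 1
    ext i j
    by_cases h : j = Fin.last l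
    · subst h
      rw [Matrix.updateCol_self]
      rfl
    · rw [Matrix.updateCol_ne h]
  have h1 : F q = (Amat E t).det := by
    have h2 : q = ∑ i ∈ Finset.range (l + 1), q.coeff i • Polynomial.X ^ i := by
      rw [← hd]
      conv_lhs => rw [q.as_sum_range]
      apply Finset.sum_congr rfl
      intro i _
      rw [← Polynomial.C_mul_X_pow_eq_monomial, Polynomial.smul_eq_C_mul]
    rw [h2, map_sum, Finset.sum_range_succ]
    simp only [map_smul]
    rw [Finset.sum_eq_zero, zero_add, hl]
    · have : q.coeff l = 1 := by
        rw [← hd]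
        exact hq
      rw [this, one_smul]
    · intro i hi
      rw [hX i (Finset.mem_range.mp hi), smul_zero]
  rw [← h1, hF, Matrix.det_succ_column _ (Fin.last l)]
  apply Finset.sum_congr rfl
  intro p _
  rw [Matrix.updateCol_self, Fin.val_last]
  congr 2
  ext i j
  rw [Matrix.submatrix_apply, Matrix.updateCol_ne]
  · unfold Amat
    simp [Fin.succAbove_last]
  · rw [Fin.succAbove_last]
    exact (Fin.castSucc_lt_last j).ne

theorem zonal_eval (E : Polynomial R) (W : R → Matrix ι ι R)
    (hF1 : ∀ t, (W t).trace = (Polynomial.derivative E).eval t)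
    (hF2 : ∀ s t, (s - t) • (W s * W t) = E.eval s • W t - E.eval t • W s) :
    ∀ (l : ℕ) (t : Fin l → R), (vandermonde t).det * gL ι R (∏ i, quad (W (t i))) =
      (Amat E t).det := by
  intro l
  induction l with
  | zero =>
    intro t
    have h1 : (1 : MvPolynomial (ι ⊕ ι) R) = MvPolynomial.C 1 := by simp
    rw [Matrix.det_isEmpty, Matrix.det_isEmpty, Finset.univ_eq_empty, Finset.prod_empty, h1, gL_C,
      one_mul]
  | succ l ih =>
    intro t
    rcases l with _ | l
    · rw [Fin.prod_univ_succ, Finset.univ_eq_empty, Finset.prod_empty, mul_one, gL_quad, hF1]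
      simp [Amat, vandermonde_apply]
    · -- the general step
      let s : Fin (l + 1) → R := fun i => t i.succ
      let P : Fin (l + 1) → R := fun j => ∏ i : Fin l, (s (j.succAbove i) - t 0)
      let Q : Fin (l + 1) → R := fun j => ∏ i : Fin l, (s (j.succAbove i) - s j)
      let tj : Fin (l + 1) → Fin (l + 1) → R := fun j i => t (j.succ.succAbove i)
      have htj0 : ∀ j, tj j 0 = t 0 := by
        intro j
        simp only [tj, Fin.succ_succAbove_zero]
      have htjs : ∀ j (i : Fin l), tj j i.succ = s (j.succAbove i) := by
        intro j i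
        simp only [tj, s, Fin.succ_succAbove_succ]
      have hV : ∀ j, (vandermonde t).det = P j * (s j - t 0) * (vandermonde s).det := by
        intro j
        rw [vander_remove t 0]
        simp only [Fin.val_zero, pow_zero, one_mul, Fin.zero_succAbove]
        rw [Fin.prod_univ_succAbove (fun i : Fin (l + 1) => t i.succ - t 0) j]
        ring
      have hV0 : (vandermonde t).det = (∏ i, (s i - t 0)) * (vandermonde s).det := by
        rw [vander_remove t 0]
        simp only [Fin.val_zero, pow_zero, one_mul, Fin.zero_succAbove]
        rfl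
      have hPV : ∀ j : Fin (l + 1), P j * (vandermonde s).det = (-1) ^ (j : ℕ) * Q j * (vandermonde (tj j)).det := by
        intro j
        have h1 := vander_remove s j
        have h2 := vander_remove (tj j) 0
        simp only [Fin.val_zero, pow_zero, one_mul, Fin.zero_succAbove, htj0, htjs] at h2
        rw [h1, h2]
        simp only [P, Q]
        ring
      -- the integral
      have hT : ∀ j, (s j - t 0) * gL ι R (quad (W (s j) * W (t 0)) *
          ∏ i : Fin l, quad (W (s (j.succAbove i)))) =
          E.eval (s j) * gL ι R (∏ i, quad (W (tj j i))) -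
          E.eval (t 0) * gL ι R (∏ i, quad (W (s i))) := by
        intro j
        rw [← gL_C_mul, ← mul_assoc, ← quad_smul, hF2, quad_sub, quad_smul, quad_smul, sub_mul,
          map_sub, mul_assoc, mul_assoc, gL_C_mul, gL_C_mul]
        congr 3
        · rw [Fin.prod_univ_succ, htj0]
          simp only [htjs]
        · rw [Fin.prod_univ_succAbove _ j]
      have hL : (vandermonde t).det * gL ι R (∏ i, quad (W (t i))) =
          ((∏ i, (s i - t 0)) * (Polynomial.derivative E).eval (t 0) -
            ∑ j, P j * E.eval (t 0)) * (Amat E s).det +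
          ∑ j : Fin (l + 1), (-1) ^ (j : ℕ) * Q j * E.eval (s j) * (Amat E (tj j)).det := by
        rw [Fin.prod_univ_succ, gL_quad_mul_prod, hF1, mul_add, Finset.mul_sum]
        have e1 : (vandermonde t).det * ((Polynomial.derivative E).eval (t 0) *
            gL ι R (∏ i : Fin (l + 1), quad (W (t i.succ)))) =
            (∏ i, (s i - t 0)) * (Polynomial.derivative E).eval (t 0) * (Amat E s).det := by
          rw [hV0, ← ih s]
          ring
        have e2 : ∀ j : Fin (l + 1), (vandermonde t).det * gL ι R (quad (W (t j.succ) * W (t 0)) *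
            ∏ i : Fin l, quad (W (t (j.succAbove i).succ))) =
            (-1) ^ (j : ℕ) * Q j * E.eval (s j) * (Amat E (tj j)).det -
              P j * E.eval (t 0) * (Amat E s).det := by
          intro j
          rw [hV j]
          have := hT j
          calc P j * (s j - t 0) * (vandermonde s).det * gL ι R (quad (W (t j.succ) * W (t 0)) *
                ∏ i : Fin l, quad (W (t (j.succAbove i).succ)))
              = P j * (vandermonde s).det * ((s j - t 0) * gL ι R (quad (W (s j) * W (t 0)) *
                ∏ i : Fin l, quad (W (s (j.succAbove i))))) := by ring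
            _ = E.eval (s j) * (P j * (vandermonde s).det) * gL ι R (∏ i, quad (W (tj j i))) -
                P j * E.eval (t 0) * ((vandermonde s).det * gL ι R (∏ i, quad (W (s i)))) := by
                rw [this]; ring
            _ = E.eval (s j) * ((-1) ^ (j : ℕ) * Q j * ((vandermonde (tj j)).det *
                gL ι R (∏ i, quad (W (tj j i))))) - P j * E.eval (t 0) * (Amat E s).det := by
                rw [hPV j, ih s]; ring
            _ = _ := by rw [ih (tj j)]; ring
        rw [e1]
        simp only [e2]
        rw [Finset.sum_sub_distrib, ← Finset.sum_mul]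
        ring
      rw [hL]
      -- the determinant
      nontriviality R
      let q : Polynomial R := ∏ i, (Polynomial.X - Polynomial.C (s i))
      have hqm : q.Monic := Polynomial.monic_prod_X_sub_C s Finset.univ
      have hqd : q.natDegree = l + 1 := by
        have h9 := Polynomial.natDegree_finsetProd_X_sub_C_eq_card Finset.univ s
        change q.natDegree = _ at h9
        rw [h9, Finset.card_univ, Fintype.card_fin]
      have hsp := Fin.sum_univ_succ (n := l + 1) (fun p : Fin (l + 1 + 1) => (-1) ^ ((p : ℕ) + (l + 1)) *
        (Polynomial.derivative (q * E)).eval (t p) * (Amat E (fun i => t (p.succAbove i))).det)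
      rw [Amat_expand E t q hqm hqd, hsp]
      congr 1
      · have e1 : (fun i => t (Fin.succAbove 0 i)) = s := by
          funext i
          rw [Fin.zero_succAbove]
        rw [e1]
        congr 1
        have e2 : q.eval (t 0) = (-1) ^ (l + 1) * ∏ i, (s i - t 0) := by
          simp only [q, Polynomial.eval_prod, Polynomial.eval_sub, Polynomial.eval_X,
            Polynomial.eval_C]
          have : ∀ i, t 0 - s i = (-1) * (s i - t 0) := by intro i; ring
          simp only [this, Finset.prod_mul_distrib, Finset.prod_const, Finset.card_univ,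
            Fintype.card_fin]
        have e3 : (Polynomial.derivative q).eval (t 0) = (-1) ^ l * ∑ j, P j := by
          simp only [q]
          rw [Polynomial.derivative_prod_finset, Polynomial.eval_finsetSum, Finset.mul_sum]
          apply Finset.sum_congr rfl
          intro j _
          rw [Polynomial.derivative_sub, Polynomial.derivative_X, Polynomial.derivative_C, sub_zero,
            mul_one, Polynomial.eval_prod]
          have e4 : ∏ i ∈ Finset.univ.erase j, (Polynomial.X - Polynomial.C (s i)).eval (t 0) =
              ∏ i : Fin l, (t 0 - s (j.succAbove i)) := by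
            simp only [Polynomial.eval_sub, Polynomial.eval_X, Polynomial.eval_C]
            rw [← Finset.compl_singleton, ← Fin.image_succAbove_univ, Finset.prod_image]
            intro a _ b _ h
            exact Fin.succAbove_right_injective h
          rw [e4]
          have : ∀ i, t 0 - s (j.succAbove i) = (-1) * (s (j.succAbove i) - t 0) := by
            intro i; ring
          simp only [this, Finset.prod_mul_distrib, Finset.prod_const, Finset.card_univ,
            Fintype.card_fin, P]
        rw [Polynomial.derivative_mul, Polynomial.eval_add, Polynomial.eval_mul,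
          Polynomial.eval_mul, e2, e3, ← Finset.sum_mul, Fin.val_zero, zero_add]
        have e5 : ((-1 : R) ^ (l + 1)) * (-1) ^ (l + 1) = 1 := by
          rw [← mul_pow]; simp
        have e6 : ((-1 : R) ^ (l + 1)) * (-1) ^ l = -1 := by
          rw [pow_succ, mul_comm ((-1 : R) ^ l) (-1), mul_assoc, ← mul_pow]; simp
        linear_combination (-((∏ i, (s i - t 0)) * (Polynomial.derivative E).eval (t 0))) * e5 -
          ((∑ j, P j) * E.eval (t 0)) * e6
      · apply Finset.sum_congr rfl
        intro j _
        have e2 : q.eval (s j) = 0 := by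
          simp only [q, Polynomial.eval_prod, Polynomial.eval_sub, Polynomial.eval_X,
            Polynomial.eval_C]
          apply Finset.prod_eq_zero (Finset.mem_univ j)
          ring
        have e3 : (Polynomial.derivative q).eval (s j) = (-1) ^ l * Q j := by
          simp only [q]
          rw [Fin.prod_univ_succAbove _ j, Polynomial.derivative_mul, Polynomial.eval_add,
            Polynomial.eval_mul, Polynomial.eval_mul]
          simp only [Polynomial.derivative_sub, Polynomial.derivative_X, Polynomial.derivative_C,
            sub_zero, Polynomial.eval_one, one_mul, Polynomial.eval_sub, Polynomial.eval_X,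
            Polynomial.eval_C, sub_self, zero_mul, add_zero, Polynomial.eval_prod]
          have : ∀ i, s j - s (j.succAbove i) = (-1) * (s (j.succAbove i) - s j) := by
            intro i; ring
          simp only [this, Finset.prod_mul_distrib, Finset.prod_const, Finset.card_univ,
            Fintype.card_fin, Q]
        rw [Polynomial.derivative_mul, Polynomial.eval_add, Polynomial.eval_mul,
          Polynomial.eval_mul]
        change _ = (-1) ^ ((j.succ : ℕ) + (l + 1)) * ((Polynomial.derivative q).eval (s j) *
          E.eval (s j) + q.eval (s j) * (Polynomial.derivative E).eval (s j)) *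
          (Amat E (tj j)).det
        rw [e2, e3, zero_mul, add_zero, Fin.val_succ]
        have e6 : ((-1 : R) ^ ((j : ℕ) + 1 + (l + 1))) * (-1) ^ l = (-1) ^ (j : ℕ) := by
          rw [← pow_add]
          have : (j : ℕ) + 1 + (l + 1) + l = (j : ℕ) + 2 * (l + 1) := by ring
          rw [this, pow_add, pow_mul]
          simp
        rw [← e6]
        ring

end Pool.Agent.MP2e24f1
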